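import Mathlib

set_option autoImplicit false

open Finset
open scoped Classical

namespace Pool.Agent.Lib.MP_64e9d4_co

/-- The bipartite relation `R` contains no (bi-induced) copy of the pattern `F`. -/
def NoCopy {a b : ℕ} (F : Fin a → Fin b → Prop) {A B : Type} (R : A → B → Prop) : Prop :=
  ¬ ∃ (p : Fin a ↪ A) (q : Fin b ↪ B), ∀ i j, (R (p i) (q j) ↔ F i j)

/-- The trace of the row `w` on a tuple of columns. -/
noncomputable def trace {A B : Type} (R : A → B → Prop) {k : ℕ} (s : Fin k → B) (w : A) :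
    Finset (Fin k) := univ.filter (fun t => R w (s t))

theorem mem_trace {A B : Type} (R : A → B → Prop) {k : ℕ} (s : Fin k → B) (w : A) (t : Fin k) :
    t ∈ trace R s w ↔ R w (s t) := by
  simp [trace]

theorem shatter_lt {a b : ℕ} (F : Fin a → Fin b → Prop) {A B : Type} (R : A → B → Prop)
    (hR : NoCopy F R) (W : Finset A) {k : ℕ} (s : Fin k → B) (P : Finset (Fin k))
    (hP : (W.image (trace R s)).Shatters P) : P.card < a + b := by
  by_contra hcon
  push Not at hcon
  apply hR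
  have hsep : ∀ t ∈ P, ∀ t' ∈ P, s t = s t' → t = t' := by
    intro t ht t' ht' hst
    by_contra hne
    obtain ⟨u, hu, hut⟩ := hP (show ({t} : Finset (Fin k)) ⊆ P by simpa using ht)
    obtain ⟨w, -, rfl⟩ := Finset.mem_image.1 hu
    have h1 : t ∈ P ∩ trace R s w := by rw [hut]; simp
    have h2 : R w (s t) := (mem_trace R s w t).1 (Finset.mem_inter.1 h1).2
    have h3 : t' ∈ P ∩ trace R s w := by
      rw [Finset.mem_inter, mem_trace]
      exact ⟨ht', hst ▸ h2⟩
    rw [hut, Finset.mem_singleton] at h3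
    exact hne h3.symm
  have hcard : Fintype.card (Fin a ⊕ Fin b) ≤ Fintype.card P := by
    simpa using hcon
  obtain ⟨g⟩ := Function.Embedding.nonempty_of_card_le hcard
  have hrow : ∀ i : Fin a, ∃ w : A, ∀ x : Fin a ⊕ Fin b,
      R w (s (g x)) ↔ (x = Sum.inl i ∨ ∃ j, x = Sum.inr j ∧ F i j) := by
    intro i
    set T : Finset (Fin k) := (univ.filter (fun x : Fin a ⊕ Fin b =>
      (x = Sum.inl i ∨ ∃ j, x = Sum.inr j ∧ F i j))).image (fun x => ((g x : P) : Fin k)) with hT
    have hTP : T ⊆ P := by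
      intro t ht
      obtain ⟨x, -, rfl⟩ := Finset.mem_image.1 ht
      exact (g x).2
    obtain ⟨u, hu, hut⟩ := hP hTP
    obtain ⟨w, -, rfl⟩ := Finset.mem_image.1 hu
    refine ⟨w, fun x => ?_⟩
    have h1 : R w (s (g x)) ↔ ((g x : P) : Fin k) ∈ P ∩ trace R s w := by
      rw [Finset.mem_inter, mem_trace]
      simp
    rw [h1, hut, hT]
    constructor
    · intro h
      obtain ⟨y, hy, hyx⟩ := Finset.mem_image.1 h
      have : y = x := g.injective (Subtype.ext hyx)
      subst this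
      exact (Finset.mem_filter.1 hy).2
    · intro h
      exact Finset.mem_image.2 ⟨x, Finset.mem_filter.2 ⟨Finset.mem_univ _, h⟩, rfl⟩
  choose w hw using hrow
  refine ⟨⟨w, ?_⟩, ⟨fun j => s (g (Sum.inr j)), ?_⟩, ?_⟩
  · intro i i' hii
    have h1 : R (w i) (s (g (Sum.inl i))) := (hw i (Sum.inl i)).2 (Or.inl rfl)
    rw [hii] at h1
    have h2 := (hw i' (Sum.inl i)).1 h1
    rcases h2 with h2 | ⟨j, hj, -⟩
    · exact Sum.inl.inj h2
    · exact absurd hj (by simp)
  · intro j j' hjj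
    have := hsep _ (g (Sum.inr j)).2 _ (g (Sum.inr j')).2 hjj
    have h2 := g.injective (Subtype.ext this)
    exact Sum.inr.inj h2
  · intro i j
    show R (w i) (s (g (Sum.inr j))) ↔ F i j
    rw [hw i (Sum.inr j)]
    constructor
    · rintro (h | ⟨j', hj', hF⟩)
      · cases h
      · rw [Sum.inr.inj hj']
        exact hF
    · intro h
      exact Or.inr ⟨j, rfl, h⟩

theorem card_trace_le {a b : ℕ} (F : Fin a → Fin b → Prop) {A B : Type} (R : A → B → Prop)
    (hR : NoCopy F R) (W : Finset A) {k : ℕ} (hk : 1 ≤ k) (s : Fin k → B) :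
    (W.image (trace R s)).card ≤ (a + b + 1) * k ^ (a + b) := by
  have h1 : (W.image (trace R s)).card ≤ (W.image (trace R s)).shatterer.card :=
    card_le_card_shatterer _
  have h2 := card_shatterer_le_sum_vcDim (𝒜 := W.image (trace R s))
  have h3 : (W.image (trace R s)).vcDim ≤ a + b := by
    unfold vcDim
    apply Finset.sup_le
    intro P hP
    exact (shatter_lt F R hR W s P (mem_shatterer.1 hP)).le
  refine (h1.trans h2).trans ?_
  calc ∑ i ∈ Iic (W.image (trace R s)).vcDim, (Fintype.card (Fin k)).choose i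
      ≤ ∑ i ∈ Iic (a + b), (Fintype.card (Fin k)).choose i := by
        apply Finset.sum_le_sum_of_subset
        intro x hx
        rw [Finset.mem_Iic] at hx ⊢
        exact hx.trans h3
    _ ≤ ∑ i ∈ Iic (a + b), k ^ (a + b) := by
        apply Finset.sum_le_sum
        intro i hi
        rw [Finset.mem_Iic] at hi
        rw [Fintype.card_fin]
        exact (Nat.choose_le_pow k i).trans (Nat.pow_le_pow_right hk hi)
    _ = (a + b + 1) * k ^ (a + b) := by
        rw [Finset.sum_const, smul_eq_mul, Nat.card_Iic]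

/-- number of columns in `S` on which the rows `w`, `w'` differ -/
noncomputable def dist {A B : Type} (R : A → B → Prop) (S : Finset B) (w w' : A) : ℕ :=
  (S.filter (fun b => ¬ (R w b ↔ R w' b))).card

theorem dist_comm {A B : Type} (R : A → B → Prop) (S : Finset B) (w w' : A) :
    dist R S w w' = dist R S w' w := by
  unfold dist
  congr 1
  ext b
  simp only [Finset.mem_filter]
  tauto

theorem dist_triangle {A B : Type} (R : A → B → Prop) (S : Finset B) (w w' w'' : A) :
    dist R S w w'' ≤ dist R S w w' + dist R S w' w'' := by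
  unfold dist
  refine (Finset.card_le_card ?_).trans (Finset.card_union_le _ _)
  intro b
  simp only [Finset.mem_filter, Finset.mem_union]
  tauto

theorem exists_sample {A B : Type} (R : A → B → Prop) (W : Finset A) (S : Finset B)
    (hS : S.Nonempty) (η : ℝ) (h1 : η ≤ 1) (k : ℕ) :
    ∃ s : Fin k → B,
      (((W ×ˢ W).filter (fun p : A × A => η * S.card < dist R S p.1 p.2 ∧
        trace R s p.1 = trace R s p.2)).card : ℝ) ≤ (1 - η) ^ k * (W.card : ℝ) ^ 2 := by
  set PS : Finset (Fin k → B) := Fintype.piFinset (fun _ : Fin k => S) with hPS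
  have hPScard : PS.card = S.card ^ k := by
    rw [hPS, Fintype.card_piFinset]; simp
  have hPSne : PS.Nonempty := by
    rw [hPS]
    exact Fintype.piFinset_nonempty.2 (fun _ => hS)
  have hSpos : (0 : ℝ) < S.card := by exact_mod_cast hS.card_pos
  have key : ∑ s ∈ PS, (((W ×ˢ W).filter (fun p : A × A => η * S.card < dist R S p.1 p.2 ∧
        trace R s p.1 = trace R s p.2)).card : ℝ) ≤ ∑ s ∈ PS, (1 - η) ^ k * (W.card : ℝ) ^ 2 := by
    have e1 : ∑ s ∈ PS, (((W ×ˢ W).filter (fun p : A × A => η * S.card < dist R S p.1 p.2 ∧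
        trace R s p.1 = trace R s p.2)).card : ℝ)
        = ∑ p ∈ (W ×ˢ W), ((PS.filter (fun s => η * S.card < dist R S p.1 p.2 ∧
        trace R s p.1 = trace R s p.2)).card : ℝ) := by
      simp only [Finset.card_filter, Nat.cast_sum]
      rw [Finset.sum_comm]
    rw [e1]
    have e2 : ∀ p ∈ (W ×ˢ W), ((PS.filter (fun s => η * S.card < dist R S p.1 p.2 ∧
        trace R s p.1 = trace R s p.2)).card : ℝ) ≤ ((1 - η) * S.card) ^ k := by
      intro p hp
      by_cases hfar : η * S.card < dist R S p.1 p.2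
      · have hsub : (PS.filter (fun s => η * S.card < dist R S p.1 p.2 ∧
            trace R s p.1 = trace R s p.2)) ⊆
            Fintype.piFinset (fun _ : Fin k => S.filter (fun b => (R p.1 b ↔ R p.2 b))) := by
          intro s hs
          rw [Finset.mem_filter] at hs
          rw [Fintype.mem_piFinset]
          intro t
          rw [Finset.mem_filter]
          refine ⟨(Fintype.mem_piFinset.1 hs.1) t, ?_⟩
          have := hs.2.2
          rw [← mem_trace R s p.1 t, ← mem_trace R s p.2 t, this]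
        have hc := Finset.card_le_card hsub
        rw [Fintype.card_piFinset] at hc
        simp only [Finset.prod_const, Finset.card_univ, Fintype.card_fin] at hc
        have hc' : ((PS.filter (fun s => η * S.card < dist R S p.1 p.2 ∧
            trace R s p.1 = trace R s p.2)).card : ℝ) ≤
            ((S.filter (fun b => (R p.1 b ↔ R p.2 b))).card : ℝ) ^ k := by exact_mod_cast hc
        refine hc'.trans ?_
        have hsum : (S.filter (fun b => (R p.1 b ↔ R p.2 b))).card + dist R S p.1 p.2 = S.card := by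
          unfold dist
          exact Finset.card_filter_add_card_filter_not _
        have hsum' : ((S.filter (fun b => (R p.1 b ↔ R p.2 b))).card : ℝ) + dist R S p.1 p.2
            = S.card := by exact_mod_cast hsum
        apply pow_le_pow_left₀ (by positivity)
        nlinarith
      · have : (PS.filter (fun s => η * S.card < dist R S p.1 p.2 ∧
            trace R s p.1 = trace R s p.2)) = ∅ := by
          apply Finset.filter_eq_empty_iff.2
          intro s _ h
          exact hfar h.1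
        rw [this]
        simp only [Finset.card_empty, Nat.cast_zero]
        apply pow_nonneg
        apply mul_nonneg (by linarith) hSpos.le
    refine (Finset.sum_le_sum e2).trans ?_
    rw [Finset.sum_const, Finset.sum_const, nsmul_eq_mul, nsmul_eq_mul, Finset.card_product, hPScard]
    push_cast
    rw [mul_pow]
    apply le_of_eq
    ring
  obtain ⟨s, -, hs⟩ := Finset.exists_le_of_sum_le hPSne key
  exact ⟨s, hs⟩

/-- `R` clusters polynomially: every nonempty set of rows contains a subset of relative size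
at least `ε ^ D` whose rows pairwise differ on at most an `ε`-fraction of the given columns. -/
def Clust (D : ℕ) {A B : Type} (R : A → B → Prop) : Prop :=
  ∀ ε : ℝ, 0 < ε → ε ≤ 1 / 2 → ∀ (W : Finset A) (S : Finset B), W.Nonempty →
    ∃ W' ⊆ W, ε ^ D * (W.card : ℝ) ≤ W'.card ∧
      ∀ w ∈ W', ∀ w' ∈ W', (dist R S w w' : ℝ) ≤ ε * S.card

theorem exp_bound (d N : ℕ) (η : ℝ) (h0 : 0 < η) (h1 : η ≤ 1)
    (hN : ((4 * d + 2 * (d + 1) ^ 2 : ℕ) : ℝ) ≤ η * N) :
    (1 - η) ^ (N ^ 2) * (((d + 1 : ℕ) : ℝ) * ((N : ℝ) ^ 2) ^ d) ^ 2 ≤ 1 / 2 := by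
  have hNpos : (0 : ℝ) < N := by
    by_contra h
    push Not at h
    have h2 : (0 : ℝ) < ((4 * d + 2 * (d + 1) ^ 2 : ℕ) : ℝ) := by positivity
    have h3 : η * (N : ℝ) ≤ 0 := mul_nonpos_of_nonneg_of_nonpos h0.le h
    linarith
  have hN1 : (1 : ℝ) ≤ N := by
    have : 0 < N := by exact_mod_cast hNpos
    exact_mod_cast this
  have e1 : (1 - η) ^ (N ^ 2) ≤ Real.exp (-(((4 * d + 2 * (d + 1) ^ 2 : ℕ) : ℝ) * N)) := by
    have h2 : (1 - η) ≤ Real.exp (-η) := by
      have := Real.add_one_le_exp (-η)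
      linarith
    calc (1 - η) ^ (N ^ 2) ≤ (Real.exp (-η)) ^ (N ^ 2) :=
          pow_le_pow_left₀ (by linarith) h2 _
      _ = Real.exp (-(η * N * N)) := by
          rw [← Real.exp_nat_mul]
          congr 1
          push_cast
          ring
      _ ≤ Real.exp (-(((4 * d + 2 * (d + 1) ^ 2 : ℕ) : ℝ) * N)) := by
          apply Real.exp_le_exp.2
          have := mul_le_mul_of_nonneg_right hN hNpos.le
          linarith
  have e2 : (2 : ℝ) * (((d + 1 : ℕ) : ℝ) * ((N : ℝ) ^ 2) ^ d) ^ 2 ≤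
      Real.exp (((4 * d + 2 * (d + 1) ^ 2 : ℕ) : ℝ) * N) := by
    have h3 : (N : ℝ) ≤ Real.exp N := by
      have := Real.add_one_le_exp (N : ℝ)
      linarith
    have h4 : ((N : ℝ)) ^ (4 * d) ≤ Real.exp ((4 * d : ℕ) * N) := by
      rw [Real.exp_nat_mul]
      exact pow_le_pow_left₀ hNpos.le h3 _
    have h5 : (2 : ℝ) * ((d + 1 : ℕ) : ℝ) ^ 2 ≤ Real.exp (((2 * (d + 1) ^ 2 : ℕ) : ℝ) * N) := by
      have h6 : ((2 * (d + 1) ^ 2 : ℕ) : ℝ) ≤ ((2 * (d + 1) ^ 2 : ℕ) : ℝ) * N := by
        have : (0 : ℝ) ≤ ((2 * (d + 1) ^ 2 : ℕ) : ℝ) := by positivity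
        nlinarith
      have h7 := Real.add_one_le_exp (((2 * (d + 1) ^ 2 : ℕ) : ℝ) * N)
      have h8 : (2 : ℝ) * ((d + 1 : ℕ) : ℝ) ^ 2 = ((2 * (d + 1) ^ 2 : ℕ) : ℝ) := by push_cast; ring
      rw [h8]
      linarith
    calc (2 : ℝ) * (((d + 1 : ℕ) : ℝ) * ((N : ℝ) ^ 2) ^ d) ^ 2
        = (2 * ((d + 1 : ℕ) : ℝ) ^ 2) * (N : ℝ) ^ (4 * d) := by
          rw [mul_pow, ← pow_mul, ← pow_mul]
          ring_nf
      _ ≤ Real.exp (((2 * (d + 1) ^ 2 : ℕ) : ℝ) * N) * Real.exp ((4 * d : ℕ) * N) := by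
          apply mul_le_mul h5 h4 (by positivity) (Real.exp_pos _).le
      _ = Real.exp (((4 * d + 2 * (d + 1) ^ 2 : ℕ) : ℝ) * N) := by
          rw [← Real.exp_add]
          congr 1
          push_cast
          ring
  have e3 : (1 - η) ^ (N ^ 2) * (2 * (((d + 1 : ℕ) : ℝ) * ((N : ℝ) ^ 2) ^ d) ^ 2) ≤ 1 := by
    calc (1 - η) ^ (N ^ 2) * (2 * (((d + 1 : ℕ) : ℝ) * ((N : ℝ) ^ 2) ^ d) ^ 2)
        ≤ Real.exp (-(((4 * d + 2 * (d + 1) ^ 2 : ℕ) : ℝ) * N)) *
          Real.exp (((4 * d + 2 * (d + 1) ^ 2 : ℕ) : ℝ) * N) := by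
          apply mul_le_mul e1 e2 (by positivity) (Real.exp_pos _).le
      _ = 1 := by rw [← Real.exp_add]; simp
  linarith

theorem cluster_aux {a b : ℕ} (F : Fin a → Fin b → Prop) {A B : Type} (R : A → B → Prop)
    (hR : NoCopy F R) (η : ℝ) (h0 : 0 < η) (h1 : η ≤ 1) (N : ℕ)
    (hN : ((4 * (a + b) + 2 * (a + b + 1) ^ 2 : ℕ) : ℝ) ≤ η * N)
    (W : Finset A) (S : Finset B) (hW : W.Nonempty) (hS : S.Nonempty) :
    ∃ w0 ∈ W, ∃ W' ⊆ W,
      (W.card : ℝ) ≤ 2 * (((a + b + 1 : ℕ) : ℝ) * ((N : ℝ) ^ 2) ^ (a + b)) * W'.card ∧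
      ∀ w ∈ W', (dist R S w w0 : ℝ) ≤ η * S.card := by
  have hNpos : 0 < N := by
    rcases Nat.eq_zero_or_pos N with h | h
    · exfalso
      rw [h] at hN
      have h2 : (0 : ℝ) < ((4 * (a + b) + 2 * (a + b + 1) ^ 2 : ℕ) : ℝ) := by positivity
      simp only [Nat.cast_zero, mul_zero] at hN
      linarith
    · exact h
  have hk : 1 ≤ N ^ 2 := Nat.one_le_pow _ _ hNpos
  obtain ⟨s, hs⟩ := exists_sample R W S hS η h1 (N ^ 2)
  set M : ℝ := ((a + b + 1 : ℕ) : ℝ) * ((N : ℝ) ^ 2) ^ (a + b) with hM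
  have hMpos : 0 < M := by
    have : (0 : ℝ) < N := by exact_mod_cast hNpos
    positivity
  have hbound := exp_bound (a + b) N η h0 h1 hN
  have himg : ((W.image (trace R s)).card : ℝ) ≤ M := by
    have := card_trace_le F R hR W hk s
    rw [hM]
    exact_mod_cast this
  have himgne : (W.image (trace R s)).Nonempty := hW.image _
  -- a popular trace
  have hsum : (W.card : ℝ) = ∑ t ∈ W.image (trace R s),
      ((W.filter (fun w => trace R s w = t)).card : ℝ) := by
    exact_mod_cast Finset.card_eq_sum_card_image (trace R s) W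
  have hpop : ∃ t ∈ W.image (trace R s),
      (W.card : ℝ) / M ≤ ((W.filter (fun w => trace R s w = t)).card : ℝ) := by
    apply Finset.exists_le_of_sum_le himgne
    rw [← hsum, Finset.sum_const, nsmul_eq_mul]
    rw [mul_div_assoc', div_le_iff₀ hMpos]
    rw [mul_comm]
    exact mul_le_mul_of_nonneg_left himg (by positivity)
  obtain ⟨t, ht, htc⟩ := hpop
  set Q := W.filter (fun w => trace R s w = t) with hQ
  have hQne : Q.Nonempty := by
    obtain ⟨w, hw, hwt⟩ := Finset.mem_image.1 ht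
    exact ⟨w, Finset.mem_filter.2 ⟨hw, hwt⟩⟩
  have hQpos : (0 : ℝ) < Q.card := by exact_mod_cast hQne.card_pos
  -- few far pairs inside Q
  have hfar : (((Q ×ˢ Q).filter (fun p : A × A => η * S.card < dist R S p.1 p.2)).card : ℝ)
      ≤ (Q.card : ℝ) ^ 2 / 2 := by
    have hsub : (Q ×ˢ Q).filter (fun p : A × A => η * S.card < dist R S p.1 p.2) ⊆
        (W ×ˢ W).filter (fun p : A × A => η * S.card < dist R S p.1 p.2 ∧
        trace R s p.1 = trace R s p.2) := by
      intro p hp
      rw [Finset.mem_filter, Finset.mem_product, hQ, Finset.mem_filter, Finset.mem_filter] at hp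
      rw [Finset.mem_filter, Finset.mem_product]
      exact ⟨⟨hp.1.1.1, hp.1.2.1⟩, hp.2, by rw [hp.1.1.2, hp.1.2.2]⟩
    have hc : (((Q ×ˢ Q).filter (fun p : A × A => η * S.card < dist R S p.1 p.2)).card : ℝ) ≤
        (((W ×ˢ W).filter (fun p : A × A => η * S.card < dist R S p.1 p.2 ∧
        trace R s p.1 = trace R s p.2)).card : ℝ) := by
      exact_mod_cast Finset.card_le_card hsub
    refine (hc.trans hs).trans ?_
    have hWQ : (W.card : ℝ) ≤ M * Q.card := by
      rw [div_le_iff₀ hMpos] at htc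
      linarith
    have h2 : (W.card : ℝ) ^ 2 ≤ (M * Q.card) ^ 2 := pow_le_pow_left₀ (by positivity) hWQ 2
    have h3 : 0 ≤ (1 - η) ^ (N ^ 2) := pow_nonneg (by linarith) _
    calc (1 - η) ^ (N ^ 2) * (W.card : ℝ) ^ 2 ≤ (1 - η) ^ (N ^ 2) * (M * Q.card) ^ 2 :=
          mul_le_mul_of_nonneg_left h2 h3
      _ = ((1 - η) ^ (N ^ 2) * M ^ 2) * (Q.card : ℝ) ^ 2 := by ring
      _ ≤ (1 / 2) * (Q.card : ℝ) ^ 2 := by
          apply mul_le_mul_of_nonneg_right hbound (by positivity)
      _ = (Q.card : ℝ) ^ 2 / 2 := by ring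
  -- choose the centre
  have hcentre : ∃ w0 ∈ Q, ((Q.filter (fun w => η * S.card < dist R S w w0)).card : ℝ)
      ≤ (Q.card : ℝ) / 2 := by
    apply Finset.exists_le_of_sum_le hQne
    rw [Finset.sum_const, nsmul_eq_mul]
    have e1 : (((Q ×ˢ Q).filter (fun p : A × A => η * S.card < dist R S p.1 p.2)).card : ℝ)
        = ∑ w0 ∈ Q, ((Q.filter (fun w => η * S.card < dist R S w w0)).card : ℝ) := by
      rw [Finset.card_filter, Finset.sum_product_right]
      push_cast
      simp only [Finset.card_filter]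
      push_cast
      rfl
    rw [← e1]
    refine hfar.trans (le_of_eq ?_)
    ring
  obtain ⟨w0, hw0, hw0c⟩ := hcentre
  refine ⟨w0, (Finset.mem_filter.1 hw0).1, Q.filter (fun w => ¬ (η * S.card < dist R S w w0)),
    (Finset.filter_subset _ _).trans (Finset.filter_subset _ _), ?_, ?_⟩
  · have hadd : (Q.filter (fun w => η * S.card < dist R S w w0)).card +
        (Q.filter (fun w => ¬ (η * S.card < dist R S w w0))).card = Q.card :=
      Finset.card_filter_add_card_filter_not _
    have hadd' : ((Q.filter (fun w => η * S.card < dist R S w w0)).card : ℝ) +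
        (Q.filter (fun w => ¬ (η * S.card < dist R S w w0))).card = Q.card := by
      exact_mod_cast hadd
    have hWQ : (W.card : ℝ) ≤ M * Q.card := by
      rw [div_le_iff₀ hMpos] at htc
      linarith
    have : (Q.card : ℝ) ≤ 2 * (Q.filter (fun w => ¬ (η * S.card < dist R S w w0))).card := by
      linarith
    calc (W.card : ℝ) ≤ M * Q.card := hWQ
      _ ≤ M * (2 * (Q.filter (fun w => ¬ (η * S.card < dist R S w w0))).card) :=
          mul_le_mul_of_nonneg_left this hMpos.le
      _ = 2 * M * (Q.filter (fun w => ¬ (η * S.card < dist R S w w0))).card := by ring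
  · intro w hw
    exact not_lt.1 (Finset.mem_filter.1 hw).2

theorem two_pow_bound (K : ℕ) (ε : ℝ) (h0 : 0 < ε) (h1 : ε ≤ 1 / 2) : ε ^ K * K ≤ 1 := by
  have e1 : ε ^ K ≤ (1 / 2) ^ K := pow_le_pow_left₀ h0.le h1 K
  have e2 : (K : ℝ) ≤ 2 ^ K := by exact_mod_cast (Nat.lt_two_pow_self (n := K)).le
  calc ε ^ K * K ≤ (1 / 2) ^ K * 2 ^ K := mul_le_mul e1 e2 (by positivity) (by positivity)
    _ = 1 := by rw [← mul_pow]; norm_num

/-- **Cluster lemma**: pattern-free bipartite relations cluster polynomially. -/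
theorem clust_of_noCopy {a b : ℕ} (F : Fin a → Fin b → Prop) :
    ∃ D : ℕ, ∀ (A B : Type) (R : A → B → Prop), NoCopy F R → Clust D R := by
  set d := a + b with hd
  set c : ℕ := 4 * d + 2 * (d + 1) ^ 2 with hc
  set K : ℕ := 2 * (d + 1) * (c + 1) ^ (2 * d) with hK
  refine ⟨4 * d + K, ?_⟩
  intro A B R hR ε h0 h1 W S hW
  have hWpos : (0 : ℝ) < W.card := by exact_mod_cast hW.card_pos
  rcases S.eq_empty_or_nonempty with hS | hS
  · subst hS
    refine ⟨W, Finset.Subset.refl _, ?_, ?_⟩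
    · have : ε ^ (4 * d + K) ≤ 1 := pow_le_one₀ h0.le (by linarith)
      nlinarith
    · intro w _ w' _
      simp [dist]
  · set N : ℕ := ⌈(c : ℝ) / ε ^ 2⌉₊ with hN
    have he2 : 0 < ε ^ 2 := by positivity
    have hNle : (c : ℝ) ≤ ε ^ 2 * N := by
      have := Nat.le_ceil ((c : ℝ) / ε ^ 2)
      rw [div_le_iff₀ he2] at this
      linarith
    have hNup : ε ^ 2 * (N : ℝ) ≤ (c + 1 : ℕ) := by
      have h2 := Nat.ceil_lt_add_one (a := (c : ℝ) / ε ^ 2) (by positivity)
      have h3 : (N : ℝ) < (c : ℝ) / ε ^ 2 + 1 := h2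
      have h4 : ε ^ 2 * (N : ℝ) < ε ^ 2 * ((c : ℝ) / ε ^ 2 + 1) := by
        exact mul_lt_mul_of_pos_left h3 he2
      have h5 : ε ^ 2 * ((c : ℝ) / ε ^ 2 + 1) = c + ε ^ 2 := by
        field_simp
      have h6 : ε ^ 2 ≤ 1 := pow_le_one₀ h0.le (by linarith)
      push_cast
      linarith
    obtain ⟨w0, hw0, W', hW'W, hcard, hclose⟩ := cluster_aux F R hR (ε ^ 2) he2
      (pow_le_one₀ h0.le (by linarith)) N hNle W S hW hS
    refine ⟨W', hW'W, ?_, ?_⟩
    · have hW'0 : (0 : ℝ) ≤ W'.card := by positivity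
      have e1 : ε ^ (4 * d) * (2 * (((d + 1 : ℕ) : ℝ) * ((N : ℝ) ^ 2) ^ d)) ≤ K := by
        have e2 : ε ^ (4 * d) * ((N : ℝ) ^ 2) ^ d = (ε ^ 2 * N) ^ (2 * d) := by
          rw [mul_pow, ← pow_mul, ← pow_mul]
          ring_nf
        have e3 : (ε ^ 2 * (N : ℝ)) ^ (2 * d) ≤ ((c + 1 : ℕ) : ℝ) ^ (2 * d) :=
          pow_le_pow_left₀ (by positivity) hNup _
        calc ε ^ (4 * d) * (2 * (((d + 1 : ℕ) : ℝ) * ((N : ℝ) ^ 2) ^ d))
            = 2 * ((d + 1 : ℕ) : ℝ) * (ε ^ (4 * d) * ((N : ℝ) ^ 2) ^ d) := by ring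
          _ ≤ 2 * ((d + 1 : ℕ) : ℝ) * ((c + 1 : ℕ) : ℝ) ^ (2 * d) := by
              rw [e2]
              exact mul_le_mul_of_nonneg_left e3 (by positivity)
          _ = K := by rw [hK]; push_cast; ring
      have e4 : ε ^ (4 * d) * (W.card : ℝ) ≤ K * W'.card := by
        calc ε ^ (4 * d) * (W.card : ℝ)
            ≤ ε ^ (4 * d) * (2 * (((d + 1 : ℕ) : ℝ) * ((N : ℝ) ^ 2) ^ d) * W'.card) :=
              mul_le_mul_of_nonneg_left hcard (by positivity)
          _ = (ε ^ (4 * d) * (2 * (((d + 1 : ℕ) : ℝ) * ((N : ℝ) ^ 2) ^ d))) * W'.card := by ring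
          _ ≤ K * W'.card := mul_le_mul_of_nonneg_right e1 hW'0
      have e5 := two_pow_bound K ε h0 h1
      calc ε ^ (4 * d + K) * (W.card : ℝ) = ε ^ K * (ε ^ (4 * d) * (W.card : ℝ)) := by
            rw [pow_add]; ring
        _ ≤ ε ^ K * (K * W'.card) := mul_le_mul_of_nonneg_left e4 (by positivity)
        _ = (ε ^ K * K) * W'.card := by ring
        _ ≤ 1 * W'.card := mul_le_mul_of_nonneg_right e5 hW'0
        _ = W'.card := one_mul _
    · intro w hw w' hw'
      have t1 := hclose w hw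
      have t2 := hclose w' hw'
      have t3 : (dist R S w w' : ℝ) ≤ dist R S w w0 + dist R S w0 w' := by
        exact_mod_cast dist_triangle R S w w0 w'
      rw [dist_comm R S w0 w'] at t3
      have hSpos : (0 : ℝ) < S.card := by exact_mod_cast hS.card_pos
      have : 2 * ε ^ 2 ≤ ε := by nlinarith
      nlinarith

/-- Simultaneous clustering for finitely many relations and column sets. -/
theorem clust_multi (D : ℕ) {A B ι : Type} (I : Finset ι) (R : ι → A → B → Prop)
    (hR : ∀ i ∈ I, Clust D (R i)) (S : ι → Finset B) (ε : ℝ) (h0 : 0 < ε) (h1 : ε ≤ 1 / 2)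
    (W : Finset A) (hW : W.Nonempty) :
    ∃ W' ⊆ W, ε ^ (D * I.card) * (W.card : ℝ) ≤ W'.card ∧
      ∀ i ∈ I, ∀ w ∈ W', ∀ w' ∈ W', (dist (R i) (S i) w w' : ℝ) ≤ ε * (S i).card := by
  induction I using Finset.induction_on with
  | empty =>
    refine ⟨W, Finset.Subset.refl _, ?_, ?_⟩
    · simp
    · intro i hi
      simp at hi
  | insert i I hi ih =>
    obtain ⟨W1, hW1, hc1, hd1⟩ := ih (fun j hj => hR j (Finset.mem_insert_of_mem hj))
    have hW1ne : W1.Nonempty := by
      rw [← Finset.card_pos]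
      have hWpos : (0 : ℝ) < W.card := by exact_mod_cast hW.card_pos
      have : (0 : ℝ) < W1.card := lt_of_lt_of_le (by positivity) hc1
      exact_mod_cast this
    obtain ⟨W2, hW2, hc2, hd2⟩ := hR i (Finset.mem_insert_self _ _) ε h0 h1 W1 (S i) hW1ne
    refine ⟨W2, hW2.trans hW1, ?_, ?_⟩
    · rw [Finset.card_insert_of_notMem hi]
      calc ε ^ (D * (I.card + 1)) * (W.card : ℝ) = ε ^ D * (ε ^ (D * I.card) * W.card) := by
            rw [mul_add, mul_one, pow_add]; ring
        _ ≤ ε ^ D * W1.card := mul_le_mul_of_nonneg_left hc1 (by positivity)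
        _ ≤ W2.card := hc2
    · intro j hj w hw w' hw'
      rcases Finset.mem_insert.1 hj with rfl | hj
      · exact hd2 w hw w' hw'
      · exact hd1 j hj w (hW2 hw) w' (hW2 hw')

end Pool.Agent.Lib.MP_64e9d4_co
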