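import Pool.Agent.Lib.MP_64e9d4_co.Cluster

set_option autoImplicit false

open Finset
open scoped Classical

namespace Pool.Agent.Lib.MP_64e9d4_co

theorem pow_le_half (ε : ℝ) (h0 : 0 < ε) (h1 : ε ≤ 1 / 2) (n : ℕ) (hn : 1 ≤ n) : ε ^ n ≤ 1 / 2 := by
  calc ε ^ n ≤ ε ^ 1 := pow_le_pow_of_le_one h0.le (by linarith) hn
    _ ≤ 1 / 2 := by simpa using h1

/-- In a clustering relation of density at least `ε` there is a box of relative size
`ε ^ E` on which the relation is full up to density `ε ^ κ`. -/
theorem dense_box (D κ : ℕ) {A B : Type} (R : A → B → Prop) (hR : Clust D R) (ε : ℝ)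
    (h0 : 0 < ε) (h1 : ε ≤ 1 / 2) (W : Finset A) (S : Finset B) (hW : W.Nonempty)
    (hS : S.Nonempty)
    (hden : ε * (W.card * S.card) ≤ ∑ w ∈ W, ((S.filter (fun b => R w b)).card : ℝ)) :
    ∃ W' ⊆ W, ∃ S' ⊆ S, ε ^ ((κ + 2) * D + 2) * (W.card : ℝ) ≤ W'.card ∧
      ε ^ ((κ + 2) * D + 2) * (S.card : ℝ) ≤ S'.card ∧
      ∑ w ∈ W', ((S'.filter (fun b => ¬ R w b)).card : ℝ) ≤ ε ^ κ * (W'.card * S'.card) := by
  have hWpos : (0 : ℝ) < W.card := by exact_mod_cast hW.card_pos
  have hSpos : (0 : ℝ) < S.card := by exact_mod_cast hS.card_pos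
  set Wr := W.filter (fun w => ε / 2 * S.card ≤ ((S.filter (fun b => R w b)).card : ℝ)) with hWr
  have hrich : ε / 2 * (W.card : ℝ) ≤ Wr.card := by
    have e1 : ∑ w ∈ W, ((S.filter (fun b => R w b)).card : ℝ) ≤
        ∑ w ∈ W, ((if ε / 2 * S.card ≤ ((S.filter (fun b => R w b)).card : ℝ) then (S.card : ℝ)
          else 0) + ε / 2 * S.card) := by
      apply Finset.sum_le_sum
      intro w _
      split_ifs with h
      · have : ((S.filter (fun b => R w b)).card : ℝ) ≤ S.card := by
          exact_mod_cast Finset.card_filter_le _ _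
        have : 0 ≤ ε / 2 * (S.card : ℝ) := by positivity
        linarith
      · push Not at h
        linarith
    rw [Finset.sum_add_distrib, ← Finset.sum_filter, Finset.sum_const, Finset.sum_const,
      nsmul_eq_mul, nsmul_eq_mul, ← hWr] at e1
    have e2 := hden.trans e1
    have e3 : ε / 2 * (W.card : ℝ) * S.card ≤ Wr.card * S.card := by nlinarith
    exact le_of_mul_le_mul_right e3 hSpos
  have hWrpos : (0 : ℝ) < Wr.card := lt_of_lt_of_le (by positivity) hrich
  have hWrne : Wr.Nonempty := by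
    rw [← Finset.card_pos]; exact_mod_cast hWrpos
  have hη0 : 0 < ε ^ (κ + 2) := by positivity
  have hη1 : ε ^ (κ + 2) ≤ 1 / 2 := pow_le_half ε h0 h1 _ (by omega)
  obtain ⟨W', hW'Wr, hcard, hclose⟩ := hR (ε ^ (κ + 2)) hη0 hη1 Wr S hWrne
  have hW'pos : (0 : ℝ) < W'.card := lt_of_lt_of_le (by positivity) hcard
  have hW'ne : W'.Nonempty := by
    rw [← Finset.card_pos]; exact_mod_cast hW'pos
  obtain ⟨w0, hw0⟩ := hW'ne
  have hw0r := (Finset.mem_filter.1 (hW'Wr hw0)).2
  refine ⟨W', hW'Wr.trans (Finset.filter_subset _ _), S.filter (fun b => R w0 b),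
    Finset.filter_subset _ _, ?_, ?_, ?_⟩
  · calc ε ^ ((κ + 2) * D + 2) * (W.card : ℝ)
        = (ε ^ (κ + 2)) ^ D * (ε * (ε * W.card)) := by
          rw [pow_add, pow_mul]; ring
      _ ≤ (ε ^ (κ + 2)) ^ D * (ε / 2 * W.card) := by
          apply mul_le_mul_of_nonneg_left _ (by positivity)
          nlinarith [mul_pos h0 hWpos]
      _ ≤ (ε ^ (κ + 2)) ^ D * Wr.card := mul_le_mul_of_nonneg_left hrich (by positivity)
      _ ≤ W'.card := hcard
  · calc ε ^ ((κ + 2) * D + 2) * (S.card : ℝ) ≤ ε ^ 2 * S.card := by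
          apply mul_le_mul_of_nonneg_right _ hSpos.le
          exact pow_le_pow_of_le_one h0.le (by linarith) (by omega)
      _ ≤ ε / 2 * S.card := by nlinarith [mul_pos h0 hSpos]
      _ ≤ _ := hw0r
  · have hrow : ∀ w ∈ W', (((S.filter (fun b => R w0 b)).filter (fun b => ¬ R w b)).card : ℝ) ≤
        ε ^ κ * ((S.filter (fun b => R w0 b)).card : ℝ) := by
      intro w hw
      have e1 : (((S.filter (fun b => R w0 b)).filter (fun b => ¬ R w b)).card : ℝ) ≤
          dist R S w w0 := by
        unfold dist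
        exact_mod_cast Finset.card_le_card (by
          intro b hb
          simp only [Finset.mem_filter] at hb ⊢
          refine ⟨hb.1.1, ?_⟩
          intro h
          exact hb.2 (h.2 hb.1.2))
      have e2 := hclose w hw w0 hw0
      have e3 : ε ^ (κ + 2) * (S.card : ℝ) ≤ ε ^ κ * (ε / 2 * S.card) := by
        rw [pow_add]
        have : ε ^ 2 * (S.card : ℝ) ≤ ε / 2 * S.card := by nlinarith [mul_pos h0 hSpos]
        calc ε ^ κ * ε ^ 2 * (S.card : ℝ) = ε ^ κ * (ε ^ 2 * S.card) := by ring
          _ ≤ _ := mul_le_mul_of_nonneg_left this (by positivity)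
      have e4 : ε ^ κ * (ε / 2 * (S.card : ℝ)) ≤ ε ^ κ * ((S.filter (fun b => R w0 b)).card : ℝ) :=
        mul_le_mul_of_nonneg_left hw0r (by positivity)
      linarith
    calc ∑ w ∈ W', (((S.filter (fun b => R w0 b)).filter (fun b => ¬ R w b)).card : ℝ)
        ≤ ∑ w ∈ W', ε ^ κ * ((S.filter (fun b => R w0 b)).card : ℝ) := Finset.sum_le_sum hrow
      _ = ε ^ κ * (W'.card * ((S.filter (fun b => R w0 b)).card : ℝ)) := by
          rw [Finset.sum_const, nsmul_eq_mul]; ring

/-- The fraction of elements of `Z` satisfying `L`. -/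
noncomputable def frac {V : Type} (Z : Finset V) (L : V → Prop) : ℝ :=
  ((Z.filter L).card : ℝ) / Z.card

theorem frac_nonneg {V : Type} (Z : Finset V) (L : V → Prop) : 0 ≤ frac Z L := by
  unfold frac; positivity

theorem frac_le_one {V : Type} (Z : Finset V) (L : V → Prop) : frac Z L ≤ 1 := by
  unfold frac
  apply div_le_one_of_le₀ _ (by positivity)
  exact_mod_cast Finset.card_filter_le _ _

theorem card_mul_frac {V : Type} (Z : Finset V) (L : V → Prop) (hZ : Z.Nonempty) :
    (Z.card : ℝ) * frac Z L = ∑ v ∈ Z, (if L v then (1 : ℝ) else 0) := by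
  have : (0 : ℝ) < Z.card := by exact_mod_cast hZ.card_pos
  unfold frac
  rw [mul_div_cancel₀ _ this.ne', Finset.card_filter]
  push_cast
  rfl

/-- The main induction: if the product of the fractions `q_j` is tiny on average over a box,
then one of the `q_j` is at most `ε` on average over a polynomially large sub-box. -/
theorem main_induction (D m : ℕ) : ∃ C : ℕ, ∀ (A B V ι : Type) (J : Finset ι), J.card = m →
    ∀ (Z : ι → Finset V) (L : ι → V → A → B → Prop), (∀ j ∈ J, (Z j).Nonempty) →
    (∀ j ∈ J, ∀ v ∈ Z j, Clust D (L j v)) → ∀ ε : ℝ, 0 < ε → ε ≤ 1 / 2 →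
    ∀ (A0 : Finset A) (B0 : Finset B), A0.Nonempty → B0.Nonempty →
    ∑ w ∈ A0, ∑ u ∈ B0, ∏ j ∈ J, frac (Z j) (fun v => L j v w u) ≤
      ε ^ C * ((A0.card : ℝ) * B0.card) →
    ∃ j ∈ J, ∃ A' ⊆ A0, ∃ B' ⊆ B0, ε ^ C * (A0.card : ℝ) ≤ A'.card ∧
      ε ^ C * (B0.card : ℝ) ≤ B'.card ∧
      ∑ w ∈ A', ∑ u ∈ B', frac (Z j) (fun v => L j v w u) ≤ ε * ((A'.card : ℝ) * B'.card) := by
  induction m with
  | zero =>
    refine ⟨1, ?_⟩
    intro A B V ι J hJ Z L _ _ ε h0 h1 A0 B0 hA hB hsum
    exfalso
    rw [Finset.card_eq_zero] at hJ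
    subst hJ
    simp only [Finset.prod_empty, Finset.sum_const, nsmul_eq_mul, mul_one, pow_one] at hsum
    have hApos : (0 : ℝ) < A0.card := by exact_mod_cast hA.card_pos
    have hBpos : (0 : ℝ) < B0.card := by exact_mod_cast hB.card_pos
    nlinarith [mul_pos hApos hBpos]
  | succ m ih =>
    obtain ⟨C1, ih⟩ := ih
    set E : ℕ := (C1 + 1 + 2) * D + 2 with hE
    refine ⟨C1 + 4 * E + 2 + 1, ?_⟩
    intro A B V ι J hJ Z L hZ hL ε h0 h1 A0 B0 hA hB hsum
    have hApos : (0 : ℝ) < A0.card := by exact_mod_cast hA.card_pos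
    have hBpos : (0 : ℝ) < B0.card := by exact_mod_cast hB.card_pos
    have hNpos : (0 : ℝ) < (A0.card : ℝ) * B0.card := mul_pos hApos hBpos
    have hJne : J.Nonempty := by
      rw [← Finset.card_pos]; omega
    obtain ⟨j, hj⟩ := hJne
    have hJ' : (J.erase j).card = m := by
      rw [Finset.card_erase_of_mem hj]; omega
    by_cases hsmall : ∑ w ∈ A0, ∑ u ∈ B0, frac (Z j) (fun v => L j v w u) ≤
        ε * ((A0.card : ℝ) * B0.card)
    · refine ⟨j, hj, A0, Finset.Subset.refl _, B0, Finset.Subset.refl _, ?_, ?_, hsmall⟩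
      · have : ε ^ (C1 + 4 * E + 2 + 1) ≤ 1 := pow_le_one₀ h0.le (by linarith)
        nlinarith
      · have : ε ^ (C1 + 4 * E + 2 + 1) ≤ 1 := pow_le_one₀ h0.le (by linarith)
        nlinarith
    · push Not at hsmall
      set P : A → B → ℝ := fun w u => ∏ i ∈ J.erase j, frac (Z i) (fun v => L i v w u) with hP
      have hP0 : ∀ w u, 0 ≤ P w u := fun w u =>
        Finset.prod_nonneg (fun i _ => frac_nonneg _ _)
      have hP1 : ∀ w u, P w u ≤ 1 := fun w u =>
        Finset.prod_le_one (fun i _ => frac_nonneg _ _) (fun i _ => frac_le_one _ _)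
      set f : V → ℝ := fun v => ∑ w ∈ A0, ∑ u ∈ B0, (if L j v w u then (1 : ℝ) else 0) with hf
      set g : V → ℝ := fun v => ∑ w ∈ A0, ∑ u ∈ B0, (if L j v w u then P w u else 0) with hg
      have hZpos : (0 : ℝ) < (Z j).card := by exact_mod_cast (hZ j hj).card_pos
      have sumf : ∑ v ∈ Z j, f v = (Z j).card * ∑ w ∈ A0, ∑ u ∈ B0,
          frac (Z j) (fun v => L j v w u) := by
        rw [Finset.mul_sum]
        simp only [hf]
        rw [Finset.sum_comm]
        apply Finset.sum_congr rfl
        intro w _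
        rw [Finset.mul_sum, Finset.sum_comm]
        apply Finset.sum_congr rfl
        intro u _
        rw [card_mul_frac _ _ (hZ j hj)]
      have sumg : ∑ v ∈ Z j, g v = (Z j).card * ∑ w ∈ A0, ∑ u ∈ B0,
          ∏ i ∈ J, frac (Z i) (fun v => L i v w u) := by
        rw [Finset.mul_sum]
        simp only [hg]
        rw [Finset.sum_comm]
        apply Finset.sum_congr rfl
        intro w _
        rw [Finset.mul_sum, Finset.sum_comm]
        apply Finset.sum_congr rfl
        intro u _
        rw [← Finset.mul_prod_erase J _ hj, ← mul_assoc, card_mul_frac _ _ (hZ j hj),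
          Finset.sum_mul]
        apply Finset.sum_congr rfl
        intro v _
        split_ifs <;> simp [hP]
      -- choose a good `v`
      have hv : ∃ v ∈ Z j, ε / 2 * ((A0.card : ℝ) * B0.card) ≤ f v ∧
          g v ≤ 2 * ε ^ (C1 + 4 * E + 2) * ((A0.card : ℝ) * B0.card) := by
        by_contra hcon
        push Not at hcon
        have hfN : ∀ v, f v ≤ (A0.card : ℝ) * B0.card := by
          intro v
          simp only [hf]
          calc ∑ w ∈ A0, ∑ u ∈ B0, (if L j v w u then (1 : ℝ) else 0)
              ≤ ∑ w ∈ A0, ∑ u ∈ B0, (1 : ℝ) := by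
                apply Finset.sum_le_sum; intro w _
                apply Finset.sum_le_sum; intro u _
                split_ifs <;> norm_num
            _ = _ := by simp
        have hg0 : ∀ v, 0 ≤ g v := by
          intro v
          simp only [hg]
          apply Finset.sum_nonneg; intro w _
          apply Finset.sum_nonneg; intro u _
          split_ifs
          · exact hP0 w u
          · exact le_refl _
        have hpt : ∀ v ∈ Z j, 2 * ε ^ (C1 + 4 * E + 2) * f v ≤
            2 * ε ^ (C1 + 4 * E + 2) * (ε / 2 * ((A0.card : ℝ) * B0.card)) + g v := by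
          intro v hvZ
          by_cases h : ε / 2 * ((A0.card : ℝ) * B0.card) ≤ f v
          · have h2 := hcon v hvZ h
            have h3 : 2 * ε ^ (C1 + 4 * E + 2) * f v ≤
                2 * ε ^ (C1 + 4 * E + 2) * ((A0.card : ℝ) * B0.card) :=
              mul_le_mul_of_nonneg_left (hfN v) (by positivity)
            have h4 : 0 ≤ 2 * ε ^ (C1 + 4 * E + 2) * (ε / 2 * ((A0.card : ℝ) * B0.card)) := by
              positivity
            linarith
          · push Not at h
            have h3 : 2 * ε ^ (C1 + 4 * E + 2) * f v ≤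
                2 * ε ^ (C1 + 4 * E + 2) * (ε / 2 * ((A0.card : ℝ) * B0.card)) :=
              mul_le_mul_of_nonneg_left h.le (by positivity)
            linarith [hg0 v]
        have hs := Finset.sum_le_sum hpt
        rw [← Finset.mul_sum, Finset.sum_add_distrib, sumf, sumg, Finset.sum_const,
          nsmul_eq_mul] at hs
        have hs2 : ((Z j).card : ℝ) * ∑ w ∈ A0, ∑ u ∈ B0,
          ∏ i ∈ J, frac (Z i) (fun v => L i v w u) ≤ (Z j).card *
            (ε ^ (C1 + 4 * E + 2 + 1) * ((A0.card : ℝ) * B0.card)) :=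
          mul_le_mul_of_nonneg_left hsum hZpos.le
        have hs3 : 2 * ε ^ (C1 + 4 * E + 2) * ((Z j).card * (ε * ((A0.card : ℝ) * B0.card))) <
            2 * ε ^ (C1 + 4 * E + 2) * ((Z j).card * ∑ w ∈ A0, ∑ u ∈ B0,
              frac (Z j) (fun v => L j v w u)) := by
          apply mul_lt_mul_of_pos_left _ (by positivity)
          exact mul_lt_mul_of_pos_left hsmall hZpos
        rw [pow_succ] at hs2
        nlinarith
      obtain ⟨v, hvZ, hfv, hgv⟩ := hv
      -- pass to a sub-box on which `L j v` is nearly full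
      have hfv' : ε ^ 2 * ((A0.card : ℝ) * B0.card) ≤
          ∑ w ∈ A0, ((B0.filter (fun u => L j v w u)).card : ℝ) := by
        have e1 : ∑ w ∈ A0, ((B0.filter (fun u => L j v w u)).card : ℝ) = f v := by
          simp only [hf, Finset.card_filter]
          push_cast
          rfl
        rw [e1]
        refine le_trans ?_ hfv
        apply mul_le_mul_of_nonneg_right _ hNpos.le
        nlinarith
      have hε2 : (0 : ℝ) < ε ^ 2 := by positivity
      have hε2' : ε ^ 2 ≤ 1 / 2 := pow_le_half ε h0 h1 2 (by norm_num)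
      obtain ⟨A1, hA1, B1, hB1, hcA, hcB, hmiss⟩ := dense_box D (C1 + 1) (L j v)
        (hL j hj v hvZ) (ε ^ 2) hε2 hε2' A0 B0 hA hB hfv'
      have hA1pos : (0 : ℝ) < A1.card := lt_of_lt_of_le (by positivity) hcA
      have hB1pos : (0 : ℝ) < B1.card := lt_of_lt_of_le (by positivity) hcB
      have hA1ne : A1.Nonempty := by rw [← Finset.card_pos]; exact_mod_cast hA1pos
      have hB1ne : B1.Nonempty := by rw [← Finset.card_pos]; exact_mod_cast hB1pos
      rw [← hE, ← pow_mul] at hcA hcB
      have hprod : ∑ w ∈ A1, ∑ u ∈ B1, P w u ≤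
          ∑ w ∈ A1, ((B1.filter (fun b => ¬ L j v w b)).card : ℝ) + g v := by
        have e1 : ∑ w ∈ A1, ∑ u ∈ B1, P w u ≤ ∑ w ∈ A1, ∑ u ∈ B1,
            ((if ¬ L j v w u then (1 : ℝ) else 0) + (if L j v w u then P w u else 0)) := by
          apply Finset.sum_le_sum; intro w _
          apply Finset.sum_le_sum; intro u _
          by_cases h : L j v w u
          · simp [h]
          · simp only [h, not_false_eq_true, if_true, if_false, add_zero]
            exact hP1 w u
        refine e1.trans ?_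
        have e2 : ∑ w ∈ A1, ∑ u ∈ B1,
            ((if ¬ L j v w u then (1 : ℝ) else 0) + (if L j v w u then P w u else 0)) =
            ∑ w ∈ A1, ((B1.filter (fun b => ¬ L j v w b)).card : ℝ) +
            ∑ w ∈ A1, ∑ u ∈ B1, (if L j v w u then P w u else 0) := by
          simp only [Finset.sum_add_distrib, Finset.card_filter]
          push_cast
          rfl
        rw [e2]
        have e3 : ∑ w ∈ A1, ∑ u ∈ B1, (if L j v w u then P w u else 0) ≤ g v := by
          simp only [hg]
          have hnn : ∀ w u, 0 ≤ (if L j v w u then P w u else 0) := by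
            intro w u
            split_ifs
            · exact hP0 w u
            · exact le_refl _
          calc ∑ w ∈ A1, ∑ u ∈ B1, (if L j v w u then P w u else 0)
              ≤ ∑ w ∈ A1, ∑ u ∈ B0, (if L j v w u then P w u else 0) := by
                apply Finset.sum_le_sum; intro w _
                exact Finset.sum_le_sum_of_subset_of_nonneg hB1 (fun u _ _ => hnn w u)
            _ ≤ _ := Finset.sum_le_sum_of_subset_of_nonneg hA1
                (fun w _ _ => Finset.sum_nonneg (fun u _ => hnn w u))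
        linarith
      have hN : ε ^ (4 * E) * ((A0.card : ℝ) * B0.card) ≤ (A1.card : ℝ) * B1.card := by
        calc ε ^ (4 * E) * ((A0.card : ℝ) * B0.card)
            = (ε ^ (2 * E) * A0.card) * (ε ^ (2 * E) * B0.card) := by
              have : 4 * E = 2 * E + 2 * E := by ring
              rw [this, pow_add]; ring
          _ ≤ _ := mul_le_mul hcA hcB (by positivity) (by positivity)
      have hfinal : ∑ w ∈ A1, ∑ u ∈ B1, ∏ i ∈ J.erase j, frac (Z i) (fun v => L i v w u) ≤
          ε ^ C1 * ((A1.card : ℝ) * B1.card) := by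
        have e1 : (ε ^ 2) ^ (C1 + 1) * ((A1.card : ℝ) * B1.card) ≤
            ε ^ C1 / 2 * ((A1.card : ℝ) * B1.card) := by
          apply mul_le_mul_of_nonneg_right _ (by positivity)
          rw [← pow_mul]
          calc ε ^ (2 * (C1 + 1)) ≤ ε ^ (C1 + 1) :=
                pow_le_pow_of_le_one h0.le (by linarith) (by omega)
            _ = ε ^ C1 * ε := pow_succ _ _
            _ ≤ ε ^ C1 * (1 / 2) := mul_le_mul_of_nonneg_left h1 (by positivity)
            _ = ε ^ C1 / 2 := by ring
        have e2 : 2 * ε ^ (C1 + 4 * E + 2) * ((A0.card : ℝ) * B0.card) ≤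
            ε ^ C1 / 2 * ((A1.card : ℝ) * B1.card) := by
          calc 2 * ε ^ (C1 + 4 * E + 2) * ((A0.card : ℝ) * B0.card)
              = (2 * ε ^ 2) * ε ^ C1 * (ε ^ (4 * E) * ((A0.card : ℝ) * B0.card)) := by
                rw [pow_add, pow_add]; ring
            _ ≤ (1 / 2) * ε ^ C1 * ((A1.card : ℝ) * B1.card) := by
                apply mul_le_mul _ hN (by positivity) (by positivity)
                apply mul_le_mul_of_nonneg_right _ (by positivity)
                nlinarith
            _ = _ := by ring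
        have e3 := hprod
        simp only [hP] at e3
        linarith
      obtain ⟨i, hi, A', hA', B', hB', hcA', hcB', hq⟩ := ih A B V ι (J.erase j) hJ' Z L
        (fun i hi => hZ i (Finset.mem_of_mem_erase hi))
        (fun i hi => hL i (Finset.mem_of_mem_erase hi)) ε h0 h1 A1 B1 hA1ne hB1ne hfinal
      refine ⟨i, Finset.mem_of_mem_erase hi, A', hA'.trans hA1, B', hB'.trans hB1, ?_, ?_, hq⟩
      · calc ε ^ (C1 + 4 * E + 2 + 1) * (A0.card : ℝ) ≤ ε ^ (C1 + 2 * E) * A0.card := by
              apply mul_le_mul_of_nonneg_right _ hApos.le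
              exact pow_le_pow_of_le_one h0.le (by linarith) (by omega)
          _ = ε ^ C1 * (ε ^ (2 * E) * A0.card) := by rw [pow_add]; ring
          _ ≤ ε ^ C1 * A1.card := mul_le_mul_of_nonneg_left hcA (by positivity)
          _ ≤ _ := hcA'
      · calc ε ^ (C1 + 4 * E + 2 + 1) * (B0.card : ℝ) ≤ ε ^ (C1 + 2 * E) * B0.card := by
              apply mul_le_mul_of_nonneg_right _ hBpos.le
              exact pow_le_pow_of_le_one h0.le (by linarith) (by omega)
          _ = ε ^ C1 * (ε ^ (2 * E) * B0.card) := by rw [pow_add]; ring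
          _ ≤ ε ^ C1 * B1.card := mul_le_mul_of_nonneg_left hcB (by positivity)
          _ ≤ _ := hcB'

end Pool.Agent.Lib.MP_64e9d4_co
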