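import Mathlib

set_option autoImplicit false

open scoped Classical

namespace Pool.Agent.Lib.MP_64e9d4_co

/-- A finite 3-graph `T` whose vertex set is partitioned into three parts `W 0`, `W 1`, `W 2`:
a set of 3-element subsets of the disjoint union of the parts. -/
structure TripartiteGraph (W : Fin 3 → Type) where
  edges : Set (Finset (Σ j, W j))
  card_eq_three : ∀ e ∈ edges, e.card = 3

/-- The crossing triple `{w 0, w 1, w 2}`. -/
noncomputable def crossing {W : Fin 3 → Type} (w : ∀ j, W j) : Finset (Σ j, W j) :=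
  Finset.univ.image (fun j => ⟨j, w j⟩)

/-- A 3-partite 3-graph with parts `V 0`, `V 1`, `V 2` is a set `H` of triples
`x ∈ V 0 × V 1 × V 2`. `HasCopy T H` says that `H` contains a tripartitely induced copy of `T`:
there are a bijection `σ` of the index set and injections `φ j : W j → V (σ j)` such that for
every `w ∈ W 0 × W 1 × W 2` the triple `w` is an edge of `T` if and only if its image (the triple
`x` whose coordinate in `V (σ j)` is `φ j (w j)`) is an edge of `H`. -/
def HasCopy {W V : Fin 3 → Type} (T : TripartiteGraph W) (H : Set (∀ i, V i)) : Prop :=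
  ∃ (σ : Equiv.Perm (Fin 3)) (φ : ∀ j, W j ↪ V (σ j)),
    ∀ (w : ∀ j, W j) (x : ∀ i, V i), (∀ j, x (σ j) = φ j (w j)) →
      (crossing w ∈ T.edges ↔ x ∈ H)

/-- The edge density `e(X 0, X 1, X 2) / (|X 0| |X 1| |X 2|)`. -/
noncomputable def density {V : Fin 3 → Type} (H : Set (∀ i, V i)) (X : ∀ i, Finset (V i)) : ℝ :=
  (((Fintype.piFinset X).filter (fun x => x ∈ H)).card : ℝ) / ∏ i, ((X i).card : ℝ)

/-- `δ` is admissible for `T` and `ε`: every 3-partite 3-graph with parts of size `n ≥ 1` and
without a tripartitely induced copy of `T` has nonempty subsets `X i` of its parts, each of size at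
least `δ n`, with edge density in `[0, ε] ∪ [1 - ε, 1]`. -/
def Admissible {W : Fin 3 → Type} (T : TripartiteGraph W) (ε δ : ℝ) : Prop :=
  ∀ n : ℕ, 1 ≤ n → ∀ (V : Fin 3 → Type) [∀ i, Fintype (V i)], (∀ i, Fintype.card (V i) = n) →
    ∀ H : Set (∀ i, V i), ¬ HasCopy T H →
      ∃ X : ∀ i, Finset (V i), (∀ i, (X i).Nonempty) ∧ (∀ i, δ * n ≤ (X i).card) ∧
        density H X ∈ Set.Icc 0 ε ∪ Set.Icc (1 - ε) 1

end Pool.Agent.Lib.MP_64e9d4_co
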