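import Pool.Agent.Lib.MP_64e9d4_co.Core

set_option autoImplicit false

open Finset
open scoped Classical

namespace Pool.Agent.Lib.MP_64e9d4_co

/-- The number of elements of `Z` satisfying `L`. -/
noncomputable def cnt {V : Type} (Z : Finset V) (L : V → Prop) : ℕ := (Z.filter L).card

theorem card_filter_eq_cnt {V : Type} (Z : Finset V) (L : V → Prop) [DecidablePred L] :
    (Z.filter L).card = cnt Z L := by
  unfold cnt
  congr!

theorem frac_eq_cnt {V : Type} (Z : Finset V) (L : V → Prop) :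
    frac Z L = (cnt Z L : ℝ) / Z.card := rfl

theorem prod_le_add {ι : Type} (J : Finset ι) (x y δ : ι → ℝ) (hx0 : ∀ j, 0 ≤ x j)
    (hx1 : ∀ j, x j ≤ 1) (hy0 : ∀ j, 0 ≤ y j) (hy1 : ∀ j, y j ≤ 1) (hδ : ∀ j, 0 ≤ δ j)
    (h : ∀ j, x j ≤ y j + δ j) : ∏ j ∈ J, x j ≤ ∏ j ∈ J, y j + ∑ j ∈ J, δ j := by
  induction J using Finset.induction_on with
  | empty => simp
  | insert a J ha ih =>
    rw [Finset.prod_insert ha, Finset.prod_insert ha, Finset.sum_insert ha]
    have hy : ∏ j ∈ J, y j ≤ 1 := Finset.prod_le_one (fun j _ => hy0 j) (fun j _ => hy1 j)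
    have hy' : 0 ≤ ∏ j ∈ J, y j := Finset.prod_nonneg (fun j _ => hy0 j)
    have hs : 0 ≤ ∑ j ∈ J, δ j := Finset.sum_nonneg (fun j _ => hδ j)
    have e1 : x a * ∏ j ∈ J, x j ≤ x a * (∏ j ∈ J, y j + ∑ j ∈ J, δ j) :=
      mul_le_mul_of_nonneg_left ih (hx0 a)
    have e2 : x a * ∑ j ∈ J, δ j ≤ ∑ j ∈ J, δ j := by nlinarith [hx1 a]
    have e3 : x a * ∏ j ∈ J, y j ≤ (y a + δ a) * ∏ j ∈ J, y j :=
      mul_le_mul_of_nonneg_right (h a) hy'
    have e4 : δ a * ∏ j ∈ J, y j ≤ δ a := by nlinarith [hδ a]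
    nlinarith

theorem clust_iff (D : ℕ) {A B : Type} (R : A → B → Prop) (hR : Clust D R) (p : Prop) :
    Clust D (fun w u => (R w u ↔ p)) := by
  intro ε h0 h1 W S hW
  obtain ⟨W', h2, h3, h4⟩ := hR ε h0 h1 W S hW
  refine ⟨W', h2, h3, ?_⟩
  intro w hw w' hw'
  have := h4 w hw w' hw'
  have e : dist (fun w u => (R w u ↔ p)) S w w' = dist R S w w' := by
    unfold dist
    congr 1
    ext b
    simp only [Finset.mem_filter]
    tauto
  rw [e]
  exact this

/-- The pattern class: `v` behaves with respect to all previously chosen vertices as required. -/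
def Pat {a b : ℕ} {X Y V : Type} (H : X → Y → V → Prop) (F : Fin a → Fin b → Prop)
    (prev : Finset (Fin a)) (u : Fin a → Y) (j : Fin b) (w : X) (v : V) : Prop :=
  ∀ i ∈ prev, (H w (u i) v ↔ F i j)

theorem fail_step (a b D t : ℕ) : ∃ t' C : ℕ, ∀ (X Y V : Type) (H : X → Y → V → Prop)
    (F : Fin a → Fin b → Prop), (∀ y, Clust D (fun x v => H x y v)) →
    (∀ v, Clust D (fun x y => H x y v)) → ∀ ε : ℝ, 0 < ε → ε ≤ 1 / 2 →
    ∀ (X0 : Finset X), X0.Nonempty → ∀ (Z : Fin b → Finset V), (∀ j, (Z j).Nonempty) →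
    ∀ (prev : Finset (Fin a)) (u : Fin a → Y) (i : Fin a) (Y0 : Finset Y), Y0.Nonempty →
    ε ^ t * ((X0.card : ℝ) * ∏ j, ((Z j).card : ℝ)) ≤
      ∑ w ∈ X0, ∏ j, (((Z j).filter (Pat H F prev u j w)).card : ℝ) →
    (∀ y ∈ Y0, ∑ w ∈ X0, ∏ j, (((Z j).filter (fun v => Pat H F prev u j w v ∧
      (H w y v ↔ F i j))).card : ℝ) ≤ ε ^ t' * ((X0.card : ℝ) * ∏ j, ((Z j).card : ℝ))) →
    ∃ j, ∃ X' ⊆ X0, ∃ Y' ⊆ Y0, ∃ Z' ⊆ Z j, ε ^ C * (X0.card : ℝ) ≤ X'.card ∧
      ε ^ C * (Y0.card : ℝ) ≤ Y'.card ∧ ε ^ C * ((Z j).card : ℝ) ≤ Z'.card ∧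
      ∑ x ∈ X', ∑ y ∈ Y', ((Z'.filter (fun v => (H x y v ↔ F i j))).card : ℝ) ≤
        ε * ((X'.card : ℝ) * Y'.card * Z'.card) := by
  obtain ⟨C3, hmain⟩ := main_induction D b
  set s : ℕ := t + C3 + 4 * a * b + 1 with hs
  refine ⟨2 * t + s * (D * (a * b)) + C3 + 3, C3 + s * (D * (a * b)) + t + 1, ?_⟩
  intro X Y V H F hY hV ε h0 h1 X0 hX0 Z hZ prev u i Y0 hY0 hP hfail
  have hX0pos : (0 : ℝ) < X0.card := by exact_mod_cast hX0.card_pos
  have hY0pos : (0 : ℝ) < Y0.card := by exact_mod_cast hY0.card_pos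
  have hZpos : ∀ j, (0 : ℝ) < (Z j).card := fun j => by exact_mod_cast (hZ j).card_pos
  set PZ : ℝ := ∏ j, ((Z j).card : ℝ) with hPZ
  have hPZpos : 0 < PZ := Finset.prod_pos (fun j _ => hZpos j)
  have htpos : 0 < ε ^ t := by positivity
  have hprodle : ∀ w, ∏ j, (((Z j).filter (Pat H F prev u j w)).card : ℝ) ≤ PZ := by
    intro w
    apply Finset.prod_le_prod
    · intro j _; positivity
    · intro j _
      exact_mod_cast Finset.card_filter_le _ _
  -- rich vertices
  set W := X0.filter (fun w => ε ^ t / 2 * PZ ≤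
    ∏ j, (((Z j).filter (Pat H F prev u j w)).card : ℝ)) with hW
  have hWcard : ε ^ t / 2 * (X0.card : ℝ) ≤ W.card := by
    have e1 : ∑ w ∈ X0, ∏ j, (((Z j).filter (Pat H F prev u j w)).card : ℝ) ≤
        ∑ w ∈ X0, ((if ε ^ t / 2 * PZ ≤ ∏ j, (((Z j).filter (Pat H F prev u j w)).card : ℝ)
          then PZ else 0) + ε ^ t / 2 * PZ) := by
      apply Finset.sum_le_sum
      intro w _
      split_ifs with h
      · have := hprodle w
        have : 0 ≤ ε ^ t / 2 * PZ := by positivity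
        linarith
      · push Not at h
        linarith
    rw [Finset.sum_add_distrib, ← Finset.sum_filter, Finset.sum_const, Finset.sum_const,
      nsmul_eq_mul, nsmul_eq_mul, ← hW] at e1
    have e2 := hP.trans e1
    have e3 : ε ^ t / 2 * (X0.card : ℝ) * PZ ≤ W.card * PZ := by nlinarith
    exact le_of_mul_le_mul_right e3 hPZpos
  have hWpos : (0 : ℝ) < W.card := lt_of_lt_of_le (by positivity) hWcard
  have hWne : W.Nonempty := by rw [← Finset.card_pos]; exact_mod_cast hWpos
  -- cluster the rich vertices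
  have hη0 : 0 < ε ^ s := by positivity
  have hη1 : ε ^ s ≤ 1 / 2 := pow_le_half ε h0 h1 s (by omega)
  obtain ⟨W', hW'W, hW'card, hclose⟩ := clust_multi D (prev ×ˢ (univ : Finset (Fin b)))
    (fun p : Fin a × Fin b => fun (x : X) (v : V) => H x (u p.1) v) (fun p _ => hY (u p.1))
    (fun p => Z p.2) (ε ^ s) hη0 hη1 W hWne
  have hW'card2 : ε ^ (s * (D * (a * b))) * (W.card : ℝ) ≤ W'.card := by
    refine le_trans ?_ hW'card
    apply mul_le_mul_of_nonneg_right _ hWpos.le
    rw [← pow_mul]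
    apply pow_le_pow_of_le_one h0.le (by linarith)
    apply Nat.mul_le_mul_left
    apply Nat.mul_le_mul_left
    rw [Finset.card_product, Finset.card_univ, Fintype.card_fin]
    apply Nat.mul_le_mul_right
    have := Finset.card_le_univ prev
    simpa using this
  have hW'pos : (0 : ℝ) < W'.card := lt_of_lt_of_le (by positivity) hW'card2
  have hW'ne : W'.Nonempty := by rw [← Finset.card_pos]; exact_mod_cast hW'pos
  obtain ⟨w0, hw0⟩ := hW'ne
  have hw0rich : ε ^ t / 2 * PZ ≤ ∏ j, (((Z j).filter (Pat H F prev u j w0)).card : ℝ) :=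
    (Finset.mem_filter.1 (hW'W hw0)).2
  set Z' : Fin b → Finset V := fun j => (Z j).filter (Pat H F prev u j w0) with hZ'
  have hZ'sub : ∀ j, Z' j ⊆ Z j := fun j => Finset.filter_subset _ _
  set PZ' : ℝ := ∏ j, ((Z' j).card : ℝ) with hPZ'
  have hPZ'ge : ε ^ t / 2 * PZ ≤ PZ' := hw0rich
  have hPZ'pos : 0 < PZ' := lt_of_lt_of_le (by positivity) hPZ'ge
  have hZ'card : ∀ j, ε ^ t / 2 * ((Z j).card : ℝ) ≤ (Z' j).card := by
    intro j
    have e1 : PZ' ≤ ((Z' j).card : ℝ) * ∏ i ∈ univ.erase j, ((Z i).card : ℝ) := by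
      rw [hPZ', ← Finset.mul_prod_erase univ _ (Finset.mem_univ j)]
      apply mul_le_mul_of_nonneg_left _ (by positivity)
      apply Finset.prod_le_prod
      · intro i _; positivity
      · intro i _
        exact_mod_cast Finset.card_le_card (hZ'sub i)
    have e2 : PZ = ((Z j).card : ℝ) * ∏ i ∈ univ.erase j, ((Z i).card : ℝ) := by
      rw [hPZ, ← Finset.mul_prod_erase univ _ (Finset.mem_univ j)]
    have e3 : 0 < ∏ i ∈ univ.erase j, ((Z i).card : ℝ) := Finset.prod_pos (fun i _ => hZpos i)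
    have e4 := hPZ'ge.trans e1
    rw [e2] at e4
    have e5 : ε ^ t / 2 * ((Z j).card : ℝ) * ∏ i ∈ univ.erase j, ((Z i).card : ℝ) ≤
        ((Z' j).card : ℝ) * ∏ i ∈ univ.erase j, ((Z i).card : ℝ) := by linarith
    exact le_of_mul_le_mul_right e5 e3
  have hZ'pos : ∀ j, (0 : ℝ) < (Z' j).card := fun j =>
    lt_of_lt_of_le (mul_pos (by positivity) (hZpos j)) (hZ'card j)
  have hZ'ne : ∀ j, (Z' j).Nonempty := fun j => by
    rw [← Finset.card_pos]; exact_mod_cast hZ'pos j
  -- elements of `W'` see almost all of `Z' j` in the pattern class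
  have hmissing : ∀ w ∈ W', ∀ j, frac (Z' j) (fun v => ¬ Pat H F prev u j w v) ≤
      a * ε ^ s * (2 / ε ^ t) := by
    intro w hw j
    have e1 : (((Z' j).filter (fun v => ¬ Pat H F prev u j w v)).card : ℝ) ≤
        a * (ε ^ s * (Z j).card) := by
      have hsub : (Z' j).filter (fun v => ¬ Pat H F prev u j w v) ⊆
          prev.biUnion (fun i => (Z j).filter (fun v => ¬ (H w0 (u i) v ↔ H w (u i) v))) := by
        intro v hv
        rw [Finset.mem_filter, hZ', Finset.mem_filter] at hv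
        obtain ⟨⟨hvZ, hvP⟩, hvn⟩ := hv
        unfold Pat at hvP hvn
        push Not at hvn
        obtain ⟨i', hi', hne⟩ := hvn
        rw [Finset.mem_biUnion]
        refine ⟨i', hi', ?_⟩
        rw [Finset.mem_filter]
        refine ⟨hvZ, ?_⟩
        have := hvP i' hi'
        tauto
      have e2 := (Finset.card_le_card hsub).trans Finset.card_biUnion_le
      have e3 : (((Z' j).filter (fun v => ¬ Pat H F prev u j w v)).card : ℝ) ≤
          ∑ i ∈ prev, (((Z j).filter (fun v => ¬ (H w0 (u i) v ↔ H w (u i) v))).card : ℝ) := by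
        exact_mod_cast e2
      refine e3.trans ?_
      calc ∑ i ∈ prev, (((Z j).filter (fun v => ¬ (H w0 (u i) v ↔ H w (u i) v))).card : ℝ)
          ≤ ∑ i ∈ prev, ε ^ s * (Z j).card := by
            apply Finset.sum_le_sum
            intro i hi
            exact hclose (i, j) (Finset.mem_product.2 ⟨hi, Finset.mem_univ _⟩) w0 hw0 w hw
        _ = prev.card * (ε ^ s * (Z j).card) := by rw [Finset.sum_const, nsmul_eq_mul]
        _ ≤ a * (ε ^ s * (Z j).card) := by
            apply mul_le_mul_of_nonneg_right _ (by positivity)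
            have := Finset.card_le_univ prev
            rw [Fintype.card_fin] at this
            exact_mod_cast this
    rw [frac_eq_cnt, div_le_iff₀ (hZ'pos j)]
    rw [card_filter_eq_cnt] at e1
    refine e1.trans ?_
    have e4 := hZ'card j
    have e5 : ((Z j).card : ℝ) ≤ 2 / ε ^ t * (Z' j).card := by
      rw [div_mul_eq_mul_div, le_div_iff₀ htpos]
      linarith
    calc (a : ℝ) * (ε ^ s * (Z j).card) = a * ε ^ s * (Z j).card := by ring
      _ ≤ a * ε ^ s * (2 / ε ^ t * (Z' j).card) := mul_le_mul_of_nonneg_left e5 (by positivity)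
      _ = _ := by ring
  -- the averages of the products are tiny
  have hrow : ∀ y ∈ Y0, ∑ w ∈ W', ∏ j, frac (Z' j) (fun v => (H w y v ↔ F i j)) ≤
      ε ^ C3 * (W'.card : ℝ) := by
    intro y hy
    have e1 : ∀ w ∈ W', ∏ j, frac (Z' j) (fun v => (H w y v ↔ F i j)) ≤
        (∏ j, (((Z j).filter (fun v => Pat H F prev u j w v ∧ (H w y v ↔ F i j))).card : ℝ)) / PZ'
          + b * (a * ε ^ s * (2 / ε ^ t)) := by
      intro w hw
      have e2 := prod_le_add (univ : Finset (Fin b))
        (fun j => frac (Z' j) (fun v => (H w y v ↔ F i j)))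
        (fun j => frac (Z' j) (fun v => Pat H F prev u j w v ∧ (H w y v ↔ F i j)))
        (fun j => frac (Z' j) (fun v => ¬ Pat H F prev u j w v))
        (fun j => frac_nonneg _ _) (fun j => frac_le_one _ _) (fun j => frac_nonneg _ _)
        (fun j => frac_le_one _ _) (fun j => frac_nonneg _ _) (by
          intro j
          rw [frac_eq_cnt, frac_eq_cnt, frac_eq_cnt, ← add_div]
          apply div_le_div_of_nonneg_right _ (hZ'pos j).le
          have hsub : (Z' j).filter (fun v => (H w y v ↔ F i j)) ⊆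
              (Z' j).filter (fun v => Pat H F prev u j w v ∧ (H w y v ↔ F i j)) ∪
              (Z' j).filter (fun v => ¬ Pat H F prev u j w v) := by
            intro v
            simp only [Finset.mem_filter, Finset.mem_union]
            tauto
          have hh := (Finset.card_le_card hsub).trans (Finset.card_union_le _ _)
          rw [card_filter_eq_cnt, card_filter_eq_cnt, card_filter_eq_cnt] at hh
          exact_mod_cast hh)
      refine e2.trans (add_le_add ?_ ?_)
      · rw [hPZ', ← Finset.prod_div_distrib]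
        apply Finset.prod_le_prod
        · intro j _; exact frac_nonneg _ _
        · intro j _
          rw [frac_eq_cnt]
          apply div_le_div_of_nonneg_right _ (hZ'pos j).le
          have hh := Finset.card_le_card (Finset.filter_subset_filter
            (fun v => Pat H F prev u j w v ∧ (H w y v ↔ F i j)) (hZ'sub j))
          rw [card_filter_eq_cnt, card_filter_eq_cnt] at hh
          rw [card_filter_eq_cnt]
          exact_mod_cast hh
      · calc ∑ j : Fin b, frac (Z' j) (fun v => ¬ Pat H F prev u j w v)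
            ≤ ∑ j : Fin b, a * ε ^ s * (2 / ε ^ t) :=
              Finset.sum_le_sum (fun j _ => hmissing w hw j)
          _ = _ := by simp
    have e3 := Finset.sum_le_sum e1
    refine e3.trans ?_
    rw [Finset.sum_add_distrib, ← Finset.sum_div, Finset.sum_const, nsmul_eq_mul]
    have e4 : (∑ w ∈ W', ∏ j, (((Z j).filter (fun v => Pat H F prev u j w v ∧
        (H w y v ↔ F i j))).card : ℝ)) / PZ' ≤ ε ^ C3 / 2 * W'.card := by
      rw [div_le_iff₀ hPZ'pos]
      have e5 : ∑ w ∈ W', ∏ j, (((Z j).filter (fun v => Pat H F prev u j w v ∧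
          (H w y v ↔ F i j))).card : ℝ) ≤ ∑ w ∈ X0, ∏ j, (((Z j).filter (fun v =>
          Pat H F prev u j w v ∧ (H w y v ↔ F i j))).card : ℝ) := by
        apply Finset.sum_le_sum_of_subset_of_nonneg
        · exact hW'W.trans (Finset.filter_subset _ _)
        · intro w _ _
          exact Finset.prod_nonneg (fun j _ => by positivity)
      refine (e5.trans (hfail y hy)).trans ?_
      -- `|X0| * PZ ≤ (2 / ε ^ t) ^ 2 * ε ^ (-(s D a b)) |W'| PZ'`
      have e6 : ε ^ (s * (D * (a * b))) * (ε ^ t / 2 * (X0.card : ℝ)) ≤ W'.card :=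
        (mul_le_mul_of_nonneg_left hWcard (by positivity)).trans hW'card2
      have e7 : ε ^ (s * (D * (a * b))) * (ε ^ t / 2 * (X0.card : ℝ)) * (ε ^ t / 2 * PZ) ≤
          W'.card * PZ' := mul_le_mul e6 hPZ'ge (by positivity) (by positivity)
      have e8 : (2 * ε) ^ 3 ≤ 1 := pow_le_one₀ (by positivity) (by linarith)
      calc ε ^ (2 * t + s * (D * (a * b)) + C3 + 3) * ((X0.card : ℝ) * PZ)
          = (2 * ε) ^ 3 * (ε ^ C3 / 2) * (ε ^ (s * (D * (a * b))) *
              (ε ^ t / 2 * (X0.card : ℝ)) * (ε ^ t / 2 * PZ)) := by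
            have : 2 * t = t + t := by ring
            rw [this]
            simp only [pow_add]
            ring
        _ ≤ 1 * (ε ^ C3 / 2) * (W'.card * PZ') := by
            apply mul_le_mul _ e7 (by positivity) (by positivity)
            exact mul_le_mul_of_nonneg_right e8 (by positivity)
        _ = ε ^ C3 / 2 * W'.card * PZ' := by ring
    have e9 : (W'.card : ℝ) * (b * (a * ε ^ s * (2 / ε ^ t))) ≤ ε ^ C3 / 2 * W'.card := by
      have e10 := two_pow_bound (4 * a * b) ε h0 h1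
      have e11 : (b : ℝ) * (a * ε ^ s * (2 / ε ^ t)) =
          ε * ε ^ C3 * (ε ^ (4 * a * b) * ((4 * a * b : ℕ) : ℝ)) / 2 := by
        rw [hs]
        push_cast
        simp only [pow_add]
        field_simp
        ring
      have e12 : ε * ε ^ C3 * (ε ^ (4 * a * b) * ((4 * a * b : ℕ) : ℝ)) / 2 ≤ ε ^ C3 / 2 := by
        have : ε * ε ^ C3 * (ε ^ (4 * a * b) * ((4 * a * b : ℕ) : ℝ)) ≤ 1 * ε ^ C3 * 1 := by
          apply mul_le_mul _ e10 (by positivity) (by positivity)
          apply mul_le_mul_of_nonneg_right (by linarith) (by positivity)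
        linarith
      rw [e11]
      calc (W'.card : ℝ) * (ε * ε ^ C3 * (ε ^ (4 * a * b) * ((4 * a * b : ℕ) : ℝ)) / 2)
          ≤ W'.card * (ε ^ C3 / 2) := mul_le_mul_of_nonneg_left e12 hW'pos.le
        _ = _ := by ring
    linarith
  have htot : ∑ w ∈ W', ∑ y ∈ Y0, ∏ j ∈ (univ : Finset (Fin b)),
      frac (Z' j) (fun v => (H w y v ↔ F i j)) ≤ ε ^ C3 * ((W'.card : ℝ) * Y0.card) := by
    rw [Finset.sum_comm]
    calc ∑ y ∈ Y0, ∑ w ∈ W', ∏ j, frac (Z' j) (fun v => (H w y v ↔ F i j))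
        ≤ ∑ y ∈ Y0, ε ^ C3 * (W'.card : ℝ) := Finset.sum_le_sum hrow
      _ = _ := by rw [Finset.sum_const, nsmul_eq_mul]; ring
  obtain ⟨j, -, A', hA', B', hB', hcA, hcB, hq⟩ := hmain X Y V (Fin b) univ (by simp) Z'
    (fun j v w y => (H w y v ↔ F i j)) (fun j _ => hZ'ne j)
    (fun j _ v _ => clust_iff D _ (hV v) _) ε h0 h1 W' Y0 ⟨w0, hw0⟩ hY0 htot
  refine ⟨j, A', (hA'.trans hW'W).trans (Finset.filter_subset _ _), B', hB', Z' j, hZ'sub j,
    ?_, ?_, ?_, ?_⟩
  · calc ε ^ (C3 + s * (D * (a * b)) + t + 1) * (X0.card : ℝ)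
        = ε ^ C3 * (ε ^ (s * (D * (a * b))) * (ε ^ t * ε * X0.card)) := by
          simp only [pow_add]; ring
      _ ≤ ε ^ C3 * (ε ^ (s * (D * (a * b))) * (ε ^ t / 2 * X0.card)) := by
          apply mul_le_mul_of_nonneg_left _ (by positivity)
          apply mul_le_mul_of_nonneg_left _ (by positivity)
          apply mul_le_mul_of_nonneg_right _ hX0pos.le
          nlinarith
      _ ≤ ε ^ C3 * (ε ^ (s * (D * (a * b))) * W.card) := by
          apply mul_le_mul_of_nonneg_left _ (by positivity)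
          exact mul_le_mul_of_nonneg_left hWcard (by positivity)
      _ ≤ ε ^ C3 * W'.card := mul_le_mul_of_nonneg_left hW'card2 (by positivity)
      _ ≤ A'.card := hcA
  · refine le_trans ?_ hcB
    apply mul_le_mul_of_nonneg_right _ hY0pos.le
    exact pow_le_pow_of_le_one h0.le (by linarith) (by omega)
  · refine le_trans ?_ (hZ'card j)
    apply mul_le_mul_of_nonneg_right _ (hZpos j).le
    calc ε ^ (C3 + s * (D * (a * b)) + t + 1) ≤ ε ^ (t + 1) :=
          pow_le_pow_of_le_one h0.le (by linarith) (by omega)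
      _ = ε ^ t * ε := pow_succ _ _
      _ ≤ ε ^ t / 2 := by nlinarith
  · have e1 : ∑ x ∈ A', ∑ y ∈ B', (((Z' j).filter (fun v => (H x y v ↔ F i j))).card : ℝ) =
        (Z' j).card * ∑ x ∈ A', ∑ y ∈ B', frac (Z' j) (fun v => (H x y v ↔ F i j)) := by
      rw [Finset.mul_sum]
      apply Finset.sum_congr rfl; intro x _
      rw [Finset.mul_sum]
      apply Finset.sum_congr rfl; intro y _
      rw [frac_eq_cnt, mul_div_cancel₀ _ (hZ'pos j).ne', card_filter_eq_cnt]
    rw [e1]
    calc ((Z' j).card : ℝ) * ∑ x ∈ A', ∑ y ∈ B', frac (Z' j) (fun v => (H x y v ↔ F i j))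
        ≤ (Z' j).card * (ε * ((A'.card : ℝ) * B'.card)) :=
          mul_le_mul_of_nonneg_left hq (hZ'pos j).le
      _ = _ := by ring

end Pool.Agent.Lib.MP_64e9d4_co
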