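import Pool.Agent.Lib.MP_64e9d4_co.Defs
import Pool.Agent.Lib.MP_64e9d4_co.Fail

set_option autoImplicit false

open Finset
open scoped Classical

namespace Pool.Agent.Lib.MP_64e9d4_co

/-- The homogeneous-box conclusion, in relational form. -/
def Concl {a b : ℕ} {X Y V : Type} (H : X → Y → V → Prop) (F : Fin a → Fin b → Prop)
    (X0 : Finset X) (Ys : Fin a → Finset Y) (Zs : Fin b → Finset V) (ε : ℝ) (C : ℕ) : Prop :=
  ∃ i j, ∃ X' ⊆ X0, ∃ Y' ⊆ Ys i, ∃ Z' ⊆ Zs j, ε ^ C * (X0.card : ℝ) ≤ X'.card ∧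
      ε ^ C * ((Ys i).card : ℝ) ≤ Y'.card ∧ ε ^ C * ((Zs j).card : ℝ) ≤ Z'.card ∧
      ∑ x ∈ X', ∑ y ∈ Y', ((Z'.filter (fun v => (H x y v ↔ F i j))).card : ℝ) ≤
        ε * ((X'.card : ℝ) * Y'.card * Z'.card)

theorem Concl.mono {a b : ℕ} {X Y V : Type} {H : X → Y → V → Prop} {F : Fin a → Fin b → Prop}
    {X0 : Finset X} {Ys : Fin a → Finset Y} {Zs : Fin b → Finset V} {ε : ℝ} (h0 : 0 < ε)
    (h1 : ε ≤ 1 / 2) {C C' : ℕ} (hC : C ≤ C') (h : Concl H F X0 Ys Zs ε C) :
    Concl H F X0 Ys Zs ε C' := by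
  obtain ⟨i, j, X', hX', Y', hY', Z', hZ', e1, e2, e3, e4⟩ := h
  have hp : ε ^ C' ≤ ε ^ C := pow_le_pow_of_le_one h0.le (by linarith) hC
  refine ⟨i, j, X', hX', Y', hY', Z', hZ', ?_, ?_, ?_, e4⟩
  · exact (mul_le_mul_of_nonneg_right hp (by positivity)).trans e1
  · exact (mul_le_mul_of_nonneg_right hp (by positivity)).trans e2
  · exact (mul_le_mul_of_nonneg_right hp (by positivity)).trans e3

/-- Greedy embedding, stage `n`. -/
theorem stage (a b D : ℕ) (n : ℕ) (hn : n ≤ a) : ∃ t C : ℕ, ∀ (X Y V : Type)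
    (H : X → Y → V → Prop) (F : Fin a → Fin b → Prop), (∀ y, Clust D (fun x v => H x y v)) →
    (∀ v, Clust D (fun x y => H x y v)) → ∀ ε : ℝ, 0 < ε → ε ≤ 1 / 2 →
    ∀ (X0 : Finset X), X0.Nonempty → ∀ (Ys : Fin a → Finset Y), (∀ i, (Ys i).Nonempty) →
    ∀ (Zs : Fin b → Finset V), (∀ j, (Zs j).Nonempty) →
    Concl H F X0 Ys Zs ε C ∨ ∃ u : Fin a → Y, (∀ i, u i ∈ Ys i) ∧
      ε ^ t * ((X0.card : ℝ) * ∏ j, ((Zs j).card : ℝ)) ≤ ∑ w ∈ X0, ∏ j,
        (((Zs j).filter (Pat H F (univ.filter (fun i : Fin a => (i : ℕ) < n)) u j w)).card : ℝ) := by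
  induction n with
  | zero =>
    refine ⟨0, 0, ?_⟩
    intro X Y V H F hY hV ε h0 h1 X0 hX0 Ys hYs Zs hZs
    right
    refine ⟨fun i => (hYs i).choose, fun i => (hYs i).choose_spec, ?_⟩
    rw [pow_zero, one_mul]
    have e : ∀ w j, (Zs j).filter (Pat H F (univ.filter (fun i : Fin a => (i : ℕ) < 0))
        (fun i => (hYs i).choose) j w) = Zs j := by
      intro w j
      apply Finset.filter_true_of_mem
      intro v _ i hi
      simp at hi
    simp only [e, Finset.sum_const, nsmul_eq_mul, le_refl]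
  | succ n ih =>
    obtain ⟨t, C, ih⟩ := ih (by omega)
    obtain ⟨t', C', hfs⟩ := fail_step a b D t
    refine ⟨t', max C C', ?_⟩
    intro X Y V H F hY hV ε h0 h1 X0 hX0 Ys hYs Zs hZs
    rcases ih X Y V H F hY hV ε h0 h1 X0 hX0 Ys hYs Zs hZs with h | ⟨u, hu, hdens⟩
    · exact Or.inl (h.mono h0 h1 (le_max_left _ _))
    · set i : Fin a := ⟨n, by omega⟩ with hi
      by_cases hex : ∃ y ∈ Ys i, ε ^ t' * ((X0.card : ℝ) * ∏ j, ((Zs j).card : ℝ)) ≤
          ∑ w ∈ X0, ∏ j, (((Zs j).filter (fun v =>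
            Pat H F (univ.filter (fun i : Fin a => (i : ℕ) < n)) u j w v ∧
              (H w y v ↔ F i j))).card : ℝ)
      · obtain ⟨y, hy, hyd⟩ := hex
        right
        refine ⟨Function.update u i y, ?_, ?_⟩
        · intro i'
          by_cases h : i' = i
          · subst h
            simpa using hy
          · rw [Function.update_of_ne h]
            exact hu i'
        · refine hyd.trans (le_of_eq ?_)
          apply Finset.sum_congr rfl
          intro w _
          apply Finset.prod_congr rfl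
          intro j _
          congr 2
          apply Finset.filter_congr
          intro v _
          unfold Pat
          constructor
          · rintro ⟨h2, h3⟩ i' hi'
            by_cases h : i' = i
            · subst h
              simpa using h3
            · rw [Function.update_of_ne h]
              apply h2 i'
              rw [Finset.mem_filter] at hi' ⊢
              refine ⟨Finset.mem_univ _, ?_⟩
              have h4 : (i' : ℕ) ≠ n := fun h5 => h (Fin.ext h5)
              have := hi'.2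
              omega
          · intro h2
            constructor
            · intro i' hi'
              have h3 := hi'
              rw [Finset.mem_filter] at h3
              have h : i' ≠ i := by
                intro h
                rw [h] at h3
                exact absurd h3.2 (by simp [hi])
              have h4 := h2 i' (Finset.mem_filter.2 ⟨Finset.mem_univ _, by omega⟩)
              rwa [Function.update_of_ne h] at h4
            · have h4 := h2 i (Finset.mem_filter.2 ⟨Finset.mem_univ _, by simp [hi]⟩)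
              simpa using h4
      · push Not at hex
        left
        obtain ⟨j, X', hX', Y', hY', Z', hZ', e1, e2, e3, e4⟩ := hfs X Y V H F hY hV ε h0 h1 X0
          hX0 Zs hZs (univ.filter (fun i : Fin a => (i : ℕ) < n)) u i (Ys i) (hYs i) hdens
          (fun y hy => (hex y hy).le)
        exact Concl.mono h0 h1 (le_max_right _ _)
          ⟨i, j, X', hX', Y', hY', Z', hZ', e1, e2, e3, e4⟩

/-- The core theorem, in relational form. -/
theorem core (a b : ℕ) (F : Fin a → Fin b → Prop) : ∃ C : ℕ, ∀ (X Y V : Type)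
    (H : X → Y → V → Prop),
    (¬ ∃ (w : X) (u : Fin a ↪ Y) (v : Fin b ↪ V), ∀ i j, (H w (u i) (v j) ↔ F i j)) →
    (∀ y, NoCopy F (fun x v => H x y v)) → (∀ v, NoCopy F (fun x y => H x y v)) →
    ∀ ε : ℝ, 0 < ε → ε ≤ 1 / 2 →
    ∀ (X0 : Finset X), X0.Nonempty → ∀ (Ys : Fin a → Finset Y), (∀ i, (Ys i).Nonempty) →
    (∀ i i', i ≠ i' → Disjoint (Ys i) (Ys i')) →
    ∀ (Zs : Fin b → Finset V), (∀ j, (Zs j).Nonempty) →
    (∀ j j', j ≠ j' → Disjoint (Zs j) (Zs j')) →
    Concl H F X0 Ys Zs ε C := by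
  obtain ⟨D, hD⟩ := clust_of_noCopy F
  obtain ⟨t, C, hst⟩ := stage a b D a le_rfl
  refine ⟨C, ?_⟩
  intro X Y V H hX hY hV ε h0 h1 X0 hX0 Ys hYs hYd Zs hZs hZd
  rcases hst X Y V H F (fun y => hD _ _ _ (hY y)) (fun v => hD _ _ _ (hV v)) ε h0 h1 X0 hX0 Ys
    hYs Zs hZs with h | ⟨u, hu, hdens⟩
  · exact h
  · exfalso
    apply hX
    have hX0pos : (0 : ℝ) < X0.card := by exact_mod_cast hX0.card_pos
    have hZpos : ∀ j, (0 : ℝ) < (Zs j).card := fun j => by exact_mod_cast (hZs j).card_pos
    have hpos : 0 < ∑ w ∈ X0, ∏ j,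
        (((Zs j).filter (Pat H F (univ.filter (fun i : Fin a => (i : ℕ) < a)) u j w)).card : ℝ) := by
      refine lt_of_lt_of_le ?_ hdens
      have : 0 < ∏ j, ((Zs j).card : ℝ) := Finset.prod_pos (fun j _ => hZpos j)
      positivity
    obtain ⟨w, hw, hwpos⟩ : ∃ w ∈ X0, 0 < ∏ j, (((Zs j).filter (Pat H F
        (univ.filter (fun i : Fin a => (i : ℕ) < a)) u j w)).card : ℝ) := by
      by_contra hcon
      push Not at hcon
      have := Finset.sum_nonpos hcon
      linarith
    have hne : ∀ j, ((Zs j).filter (Pat H F (univ.filter (fun i : Fin a => (i : ℕ) < a))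
        u j w)).Nonempty := by
      intro j
      by_contra hcon
      rw [Finset.not_nonempty_iff_eq_empty] at hcon
      have : ∏ j, (((Zs j).filter (Pat H F (univ.filter (fun i : Fin a => (i : ℕ) < a))
          u j w)).card : ℝ) = 0 := by
        apply Finset.prod_eq_zero (Finset.mem_univ j)
        rw [hcon]
        simp
      linarith
    choose v hv using hne
    refine ⟨w, ⟨u, ?_⟩, ⟨v, ?_⟩, ?_⟩
    · intro i i' hii
      by_contra hne
      have h2 := hYd i i' hne
      rw [Finset.disjoint_left] at h2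
      exact h2 (hu i) (hii ▸ hu i')
    · intro j j' hjj
      by_contra hne
      have h2 := hZd j j' hne
      rw [Finset.disjoint_left] at h2
      have h3 := (Finset.mem_filter.1 (hv j')).1
      rw [← hjj] at h3
      exact h2 (Finset.mem_filter.1 (hv j)).1 h3
    · intro i j
      have h2 := (Finset.mem_filter.1 (hv j)).2
      exact h2 i (Finset.mem_filter.2 ⟨Finset.mem_univ _, i.2⟩)

/-- Assemble a triple. -/
def mk3 {P : Fin 3 → Type} (x : P 0) (y : P 1) (z : P 2) : ∀ k, P k
  | 0 => x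
  | 1 => y
  | 2 => z

theorem mk3_eta {P : Fin 3 → Type} (f : ∀ k, P k) : mk3 (f 0) (f 1) (f 2) = f := by
  funext k
  fin_cases k <;> rfl

theorem hasCopy_of {W V : Fin 3 → Type} (T : TripartiteGraph W) (H : Set (∀ i, V i))
    (t0 t1 t2 : Fin 3) (h01 : t0 ≠ t1) (h02 : t0 ≠ t2) (h12 : t1 ≠ t2)
    (ψ0 : W t0 ↪ V 0) (ψ1 : W t1 ↪ V 1) (ψ2 : W t2 ↪ V 2)
    (hcond : ∀ (w : ∀ j, W j) (x : ∀ i, V i), x 0 = ψ0 (w t0) → x 1 = ψ1 (w t1) →
      x 2 = ψ2 (w t2) → (crossing w ∈ T.edges ↔ x ∈ H)) : HasCopy T H := by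
  set f : Fin 3 → Fin 3 := fun k => match k with
    | 0 => t0
    | 1 => t1
    | 2 => t2 with hf
  have hinj : Function.Injective f := by
    intro k k' hk
    fin_cases k <;> fin_cases k' <;> simp_all
  have hbij : Function.Bijective f := Finite.injective_iff_bijective.1 hinj
  set τ : Equiv.Perm (Fin 3) := Equiv.ofBijective f hbij with hτ
  have hτ0 : τ 0 = t0 := rfl
  have hτ1 : τ 1 = t1 := rfl
  have hτ2 : τ 2 = t2 := rfl
  let ψ : ∀ k, W (τ k) ↪ V k := fun k => match k with
    | 0 => (ψ0 : W (τ 0) ↪ V 0)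
    | 1 => (ψ1 : W (τ 1) ↪ V 1)
    | 2 => (ψ2 : W (τ 2) ↪ V 2)
  refine ⟨τ.symm, fun j => (Equiv.cast (congrArg W (τ.apply_symm_apply j).symm)).toEmbedding.trans
    (ψ (τ.symm j)), ?_⟩
  intro w x hx
  have key : ∀ k, x k = ψ k (w (τ k)) := by
    intro k
    have h := hx (τ k)
    have gen : ∀ k', k' = k → ∀ (hc : W (τ k) = W (τ k')),
        x k' = ψ k' (cast hc (w (τ k))) → x k = ψ k (w (τ k)) := by
      rintro _ rfl hc h
      simpa using h
    exact gen (τ.symm (τ k)) (τ.symm_apply_apply k) _ h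
  exact hcond w x (key 0) (key 1) (key 2)

theorem card_edges {V : Fin 3 → Type} (H : Set (∀ i, V i)) (X : ∀ i, Finset (V i)) :
    (((Fintype.piFinset X).filter (fun x => x ∈ H)).card : ℝ) =
      ∑ x ∈ X 0, ∑ y ∈ X 1, (((X 2).filter (fun z => mk3 x y z ∈ H)).card : ℝ) := by
  have e1 : ((Fintype.piFinset X).filter (fun x => x ∈ H)).card =
      ((X 0 ×ˢ (X 1 ×ˢ X 2)).filter (fun p => mk3 p.1 p.2.1 p.2.2 ∈ H)).card := by
    apply Finset.card_bij' (fun x _ => (x 0, x 1, x 2)) (fun p _ => mk3 p.1 p.2.1 p.2.2)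
    · intro x hx
      rw [Finset.mem_filter, Fintype.mem_piFinset] at hx
      rw [Finset.mem_filter, Finset.mem_product, Finset.mem_product]
      refine ⟨⟨hx.1 0, hx.1 1, hx.1 2⟩, ?_⟩
      have := hx.2
      rwa [← mk3_eta x] at this
    · intro p hp
      rw [Finset.mem_filter, Finset.mem_product, Finset.mem_product] at hp
      rw [Finset.mem_filter, Fintype.mem_piFinset]
      refine ⟨?_, hp.2⟩
      intro k
      fin_cases k
      · exact hp.1.1
      · exact hp.1.2.1
      · exact hp.1.2.2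
    · intro x _
      exact mk3_eta x
    · intro p _
      rfl
  rw [e1, Finset.card_filter, Finset.sum_product]
  push_cast
  apply Finset.sum_congr rfl
  intro x _
  rw [Finset.sum_product]
  apply Finset.sum_congr rfl
  intro y _
  rw [Finset.card_filter]
  push_cast
  rfl

/-- Disjoint blocks of equal size in a finite type. -/
theorem exists_blocks (Y : Type) [Fintype Y] (a m : ℕ) (h : a * m ≤ Fintype.card Y) :
    ∃ Ys : Fin a → Finset Y, (∀ i, (Ys i).card = m) ∧
      (∀ i i', i ≠ i' → Disjoint (Ys i) (Ys i')) := by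
  have hc : Fintype.card (Fin a × Fin m) ≤ Fintype.card Y := by simpa using h
  obtain ⟨g⟩ := Function.Embedding.nonempty_of_card_le hc
  refine ⟨fun i => univ.image (fun k : Fin m => g (i, k)), ?_, ?_⟩
  · intro i
    rw [Finset.card_image_of_injective]
    · simp
    · intro k k' hk
      exact (Prod.mk.inj (g.injective hk)).2
  · intro i i' hne
    rw [Finset.disjoint_left]
    intro y hy hy'
    obtain ⟨k, -, hk⟩ := Finset.mem_image.1 hy
    obtain ⟨k', -, hk'⟩ := Finset.mem_image.1 hy'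
    exact hne (Prod.mk.inj (g.injective (hk.trans hk'.symm))).1

theorem block_size (ε : ℝ) (h0 : 0 < ε) (h1 : ε ≤ 1 / 2) (a n : ℕ) (ha : 0 < a) (hn : a ≤ n) :
    ε ^ (2 * a) * (n : ℝ) ≤ ((n / a : ℕ) : ℝ) := by
  have e1 : n < a * (n / a + 1) := Nat.lt_mul_div_succ n ha
  have e2 : 1 ≤ n / a := (Nat.one_le_div_iff ha).2 hn
  have e3 : n ≤ (2 * a) * (n / a) := by nlinarith
  have e4 : (n : ℝ) ≤ ((2 * a : ℕ) : ℝ) * ((n / a : ℕ) : ℝ) := by exact_mod_cast e3
  have e5 := two_pow_bound (2 * a) ε h0 h1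
  calc ε ^ (2 * a) * (n : ℝ) ≤ ε ^ (2 * a) * (((2 * a : ℕ) : ℝ) * ((n / a : ℕ) : ℝ)) :=
        mul_le_mul_of_nonneg_left e4 (by positivity)
    _ = (ε ^ (2 * a) * ((2 * a : ℕ) : ℝ)) * ((n / a : ℕ) : ℝ) := by ring
    _ ≤ 1 * ((n / a : ℕ) : ℝ) := mul_le_mul_of_nonneg_right e5 (by positivity)
    _ = _ := one_mul _

theorem density_mem_unit {V : Fin 3 → Type} (H : Set (∀ i, V i)) (X : ∀ i, Finset (V i)) :
    0 ≤ density H X ∧ density H X ≤ 1 := by
  constructor
  · unfold density; positivity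
  · unfold density
    apply div_le_one_of_le₀ _ (by positivity)
    have := Finset.card_filter_le (Fintype.piFinset X) (fun x => x ∈ H)
    rw [Fintype.card_piFinset] at this
    exact_mod_cast this

/-- The main theorem, with a natural exponent, for `ε ≤ 1/2`. -/
theorem main_half {W : Fin 3 → Type} [∀ j, Fintype (W j)] (T : TripartiteGraph W)
    (hT : ∃ j, Fintype.card (W j) = 1) :
    ∃ C : ℕ, 0 < C ∧ ∀ ε : ℝ, 0 < ε → ε ≤ 1 / 2 → Admissible T ε (ε ^ C) := by
  obtain ⟨j0, hj0⟩ := hT
  obtain ⟨j1, j2, h01, h02, h12, hall⟩ : ∃ j1 j2 : Fin 3, j0 ≠ j1 ∧ j0 ≠ j2 ∧ j1 ≠ j2 ∧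
      ∀ j, j = j0 ∨ j = j1 ∨ j = j2 := by
    clear hj0
    revert j0
    decide
  obtain ⟨w0, hw0⟩ := Fintype.card_eq_one_iff.1 hj0
  have hsub : ∀ x y : W j0, x = y := fun x y => (hw0 x).trans (hw0 y).symm
  set a := Fintype.card (W j1) with ha
  set b := Fintype.card (W j2) with hb
  let e1 : W j1 ≃ Fin a := Fintype.equivFin _
  let e2 : W j2 ≃ Fin b := Fintype.equivFin _
  set F : Fin a → Fin b → Prop := fun i j => ∃ w : ∀ k, W k, e1 (w j1) = i ∧ e2 (w j2) = j ∧
    crossing w ∈ T.edges with hF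
  have hFw : ∀ w : ∀ k, W k, (crossing w ∈ T.edges ↔ F (e1 (w j1)) (e2 (w j2))) := by
    intro w
    constructor
    · intro h
      exact ⟨w, rfl, rfl, h⟩
    · rintro ⟨w', h1, h2, h3⟩
      have : w' = w := by
        funext k
        rcases hall k with rfl | rfl | rfl
        · exact hsub _ _
        · exact e1.injective h1
        · exact e2.injective h2
      rwa [← this]
  obtain ⟨C, hC⟩ := core a b F
  refine ⟨C + 2 * a + 2 * b + 1, by omega, ?_⟩
  intro ε h0 h1 n hn V _ hV H hH
  have hVne : ∀ i, Nonempty (V i) := fun i => by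
    rw [← Fintype.card_pos_iff, hV i]; omega
  have hpow : ∀ k, k ≤ C + 2 * a + 2 * b + 1 → ε ^ (C + 2 * a + 2 * b + 1) ≤ ε ^ k :=
    fun k hk => pow_le_pow_of_le_one h0.le (by linarith) hk
  have hn0 : (0 : ℝ) ≤ n := by positivity
  by_cases hsmall : n < a + b
  · -- tiny ground sets: single vertices
    let p : ∀ i, V i := fun i => (hVne i).some
    refine ⟨fun i => {p i}, fun i => Finset.singleton_nonempty _, ?_, ?_⟩
    · intro i
      simp only [Finset.card_singleton, Nat.cast_one]
      have e3 := two_pow_bound (a + b) ε h0 h1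
      have e4 : (n : ℝ) ≤ ((a + b : ℕ) : ℝ) := by exact_mod_cast hsmall.le
      calc ε ^ (C + 2 * a + 2 * b + 1) * (n : ℝ) ≤ ε ^ (a + b) * ((a + b : ℕ) : ℝ) :=
            mul_le_mul (hpow _ (by omega)) e4 hn0 (by positivity)
        _ ≤ 1 := e3
    · have hd : density H (fun i => {p i}) = if p ∈ H then 1 else 0 := by
        unfold density
        rw [Fintype.piFinset_singleton]
        rw [Finset.filter_singleton]
        split_ifs <;> simp
      rw [hd]
      split_ifs
      · right
        constructor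
        · linarith
        · exact le_refl _
      · left
        exact ⟨le_refl _, h0.le⟩
  · push Not at hsmall
    set R : V 0 → V 1 → V 2 → Prop := fun x y z => mk3 x y z ∈ H with hR
    have hmem : ∀ x : ∀ i, V i, (x ∈ H ↔ R (x 0) (x 1) (x 2)) := by
      intro x
      rw [hR]
      simp only
      rw [mk3_eta]
    have c0 : ¬ ∃ (w : V 0) (u : Fin a ↪ V 1) (v : Fin b ↪ V 2),
        ∀ i j, (R w (u i) (v j) ↔ F i j) := by
      rintro ⟨w, u, v, h⟩
      apply hH
      refine hasCopy_of T H j0 j1 j2 h01 h02 h12 ⟨fun _ => w, fun x y _ => hsub x y⟩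
        (e1.toEmbedding.trans u) (e2.toEmbedding.trans v) ?_
      intro w' x hx0 hx1 hx2
      rw [hFw, hmem, hx0, hx1, hx2]
      exact (h _ _).symm
    have c1 : ∀ y, NoCopy F (fun x v => R x y v) := by
      rintro y ⟨p, q, h⟩
      apply hH
      refine hasCopy_of T H j1 j0 j2 h01.symm h12 h02 (e1.toEmbedding.trans p)
        ⟨fun _ => y, fun x y _ => hsub x y⟩ (e2.toEmbedding.trans q) ?_
      intro w' x hx0 hx1 hx2
      rw [hFw, hmem, hx0, hx1, hx2]
      exact (h _ _).symm
    have c2 : ∀ v, NoCopy F (fun x y => R x y v) := by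
      rintro v ⟨p, q, h⟩
      apply hH
      refine hasCopy_of T H j1 j2 j0 h12 h01.symm h02.symm (e1.toEmbedding.trans p)
        (e2.toEmbedding.trans q) ⟨fun _ => v, fun x y _ => hsub x y⟩ ?_
      intro w' x hx0 hx1 hx2
      rw [hFw, hmem, hx0, hx1, hx2]
      exact (h _ _).symm
    obtain ⟨Ys, hYc, hYd⟩ := exists_blocks (V 1) a (n / a) (by
      rw [hV 1]; exact Nat.mul_div_le n a)
    obtain ⟨Zs, hZc, hZd⟩ := exists_blocks (V 2) b (n / b) (by
      rw [hV 2]; exact Nat.mul_div_le n b)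
    have hYne : ∀ i, (Ys i).Nonempty := by
      intro i
      rw [← Finset.card_pos, hYc i]
      have : 0 < a := Fin.pos i
      exact Nat.div_pos (by omega) this
    have hZne : ∀ j, (Zs j).Nonempty := by
      intro j
      rw [← Finset.card_pos, hZc j]
      have : 0 < b := Fin.pos j
      exact Nat.div_pos (by omega) this
    have := hVne 0
    obtain ⟨i, j, X', -, Y', -, Z', -, d1, d2, d3, d4⟩ := hC (V 0) (V 1) (V 2) R c0 c1 c2 ε h0 h1
      univ Finset.univ_nonempty Ys hYne hYd Zs hZne hZd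
    rw [Finset.card_univ, hV 0] at d1
    rw [hYc i] at d2
    rw [hZc j] at d3
    have hapos : 0 < a := Fin.pos i
    have hbpos : 0 < b := Fin.pos j
    have hnpos : (0 : ℝ) < n := by exact_mod_cast hn
    have s1 : ε ^ (C + 2 * a + 2 * b + 1) * (n : ℝ) ≤ X'.card :=
      (mul_le_mul_of_nonneg_right (hpow C (by omega)) hn0).trans d1
    have s2 : ε ^ (C + 2 * a + 2 * b + 1) * (n : ℝ) ≤ Y'.card := by
      have e3 := block_size ε h0 h1 a n hapos (by omega)
      calc ε ^ (C + 2 * a + 2 * b + 1) * (n : ℝ) ≤ ε ^ (C + 2 * a) * n :=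
            mul_le_mul_of_nonneg_right (hpow _ (by omega)) hn0
        _ = ε ^ C * (ε ^ (2 * a) * n) := by rw [pow_add]; ring
        _ ≤ ε ^ C * ((n / a : ℕ) : ℝ) := mul_le_mul_of_nonneg_left e3 (by positivity)
        _ ≤ _ := d2
    have s3 : ε ^ (C + 2 * a + 2 * b + 1) * (n : ℝ) ≤ Z'.card := by
      have e3 := block_size ε h0 h1 b n hbpos (by omega)
      calc ε ^ (C + 2 * a + 2 * b + 1) * (n : ℝ) ≤ ε ^ (C + 2 * b) * n :=
            mul_le_mul_of_nonneg_right (hpow _ (by omega)) hn0
        _ = ε ^ C * (ε ^ (2 * b) * n) := by rw [pow_add]; ring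
        _ ≤ ε ^ C * ((n / b : ℕ) : ℝ) := mul_le_mul_of_nonneg_left e3 (by positivity)
        _ ≤ _ := d3
    have p1 : (0 : ℝ) < X'.card := lt_of_lt_of_le (by positivity) s1
    have p2 : (0 : ℝ) < Y'.card := lt_of_lt_of_le (by positivity) s2
    have p3 : (0 : ℝ) < Z'.card := lt_of_lt_of_le (by positivity) s3
    have hprod : ∏ k : Fin 3, (((mk3 X' Y' Z' : ∀ k, Finset (V k)) k).card : ℝ) =
        (X'.card : ℝ) * Y'.card * Z'.card := by
      rw [Fin.prod_univ_three]
      rfl
    have ppos : (0 : ℝ) < (X'.card : ℝ) * Y'.card * Z'.card := mul_pos (mul_pos p1 p2) p3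
    have hcount := card_edges H (mk3 X' Y' Z' : ∀ k, Finset (V k))
    have hcount2 : (((Fintype.piFinset (mk3 X' Y' Z' : ∀ k, Finset (V k))).filter
        (fun x => x ∈ H)).card : ℝ) =
        ∑ x ∈ X', ∑ y ∈ Y', (cnt Z' (fun z => R x y z) : ℝ) := hcount
    refine ⟨(mk3 X' Y' Z' : ∀ k, Finset (V k)), ?_, ?_, ?_⟩
    · intro k
      fin_cases k
      · show X'.Nonempty
        rw [← Finset.card_pos]; exact_mod_cast p1
      · show Y'.Nonempty
        rw [← Finset.card_pos]; exact_mod_cast p2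
      · show Z'.Nonempty
        rw [← Finset.card_pos]; exact_mod_cast p3
    · intro k
      fin_cases k
      · exact s1
      · exact s2
      · exact s3
    · have hunit := density_mem_unit H (mk3 X' Y' Z' : ∀ k, Finset (V k))
      by_cases hFij : F i j
      · left
        refine ⟨hunit.1, ?_⟩
        unfold density
        rw [hprod, div_le_iff₀ ppos, hcount2]
        refine le_trans (le_of_eq ?_) d4
        apply Finset.sum_congr rfl; intro x _
        apply Finset.sum_congr rfl; intro y _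
        have hfun : (fun v => (R x y v ↔ F i j)) = (fun z => R x y z) := by
          funext z
          exact propext ⟨fun h => h.2 hFij, fun h => ⟨fun _ => hFij, fun _ => h⟩⟩
        rw [card_filter_eq_cnt, hfun]
      · right
        refine ⟨?_, hunit.2⟩
        unfold density
        rw [hprod, le_div_iff₀ ppos, hcount2]
        have hsplit : ∑ x ∈ X', ∑ y ∈ Y', (cnt Z' (fun z => R x y z) : ℝ) +
            ∑ x ∈ X', ∑ y ∈ Y', (cnt Z' (fun v => (R x y v ↔ F i j)) : ℝ) =
            (X'.card : ℝ) * Y'.card * Z'.card := by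
          rw [← Finset.sum_add_distrib]
          have : ∀ x ∈ X', ∑ y ∈ Y', (cnt Z' (fun z => R x y z) : ℝ) +
              ∑ y ∈ Y', (cnt Z' (fun v => (R x y v ↔ F i j)) : ℝ) =
              (Y'.card : ℝ) * Z'.card := by
            intro x _
            rw [← Finset.sum_add_distrib]
            have h2 : ∀ y ∈ Y', (cnt Z' (fun z => R x y z) : ℝ) +
                (cnt Z' (fun v => (R x y v ↔ F i j)) : ℝ) = (Z'.card : ℝ) := by
              intro y _
              have h3 : (Z'.filter (fun z => R x y z)).card +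
                  (Z'.filter (fun z => ¬ R x y z)).card = Z'.card :=
                Finset.card_filter_add_card_filter_not _
              have hfun : (fun v => (R x y v ↔ F i j)) = (fun z => ¬ R x y z) := by
                funext z
                exact propext ⟨fun h hr => hFij (h.1 hr),
                  fun h => ⟨fun hr => absurd hr h, fun hf => absurd hf hFij⟩⟩
              rw [hfun]
              rw [card_filter_eq_cnt, card_filter_eq_cnt] at h3
              exact_mod_cast h3
            rw [Finset.sum_congr rfl h2, Finset.sum_const, nsmul_eq_mul]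
          rw [Finset.sum_congr rfl this, Finset.sum_const, nsmul_eq_mul]
          ring
        simp only [card_filter_eq_cnt] at d4
        linarith

/-- **Main theorem.** -/
theorem main {W : Fin 3 → Type} [∀ j, Fintype (W j)] (T : TripartiteGraph W)
    (hT : ∃ j, Fintype.card (W j) = 1) :
    ∃ C : ℝ, 0 < C ∧ ∀ ε : ℝ, 0 < ε → ε < 1 → Admissible T ε (ε ^ C) := by
  obtain ⟨C, hC0, hC⟩ := main_half T hT
  refine ⟨C, by exact_mod_cast hC0, ?_⟩
  intro ε h0 h1
  rw [Real.rpow_natCast]
  by_cases hhalf : ε ≤ 1 / 2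
  · exact hC ε h0 hhalf
  · push Not at hhalf
    intro n hn V _ hV H _
    have hVne : ∀ i, Nonempty (V i) := fun i => by
      rw [← Fintype.card_pos_iff, hV i]; omega
    refine ⟨fun i => univ, fun i => ?_, fun i => ?_, ?_⟩
    · have := hVne i
      exact Finset.univ_nonempty
    · rw [Finset.card_univ, hV i]
      have : ε ^ C ≤ 1 := pow_le_one₀ h0.le h1.le
      have hn0 : (0 : ℝ) ≤ n := by positivity
      nlinarith
    · have hunit := density_mem_unit H (fun i => univ)
      by_cases hd : density H (fun i => univ) ≤ ε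
      · exact Or.inl ⟨hunit.1, hd⟩
      · push Not at hd
        exact Or.inr ⟨by linarith, hunit.2⟩

end Pool.Agent.Lib.MP_64e9d4_co
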